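import Mathlib
import Pool.Agent.W771.MK
set_option autoImplicit false

/-! Quadratic exponentials with different times in the different variables: averages over dyadic
cubes and Plancherel's theorem. -/

namespace Pool.Agent.Y247.QT

open MeasureTheory Set Complex Pool.Agent.W771 Pool.Agent.W771.MD
open scoped ENNReal NNReal FourierTransform

variable {m : ℕ}

/-- the quadratic exponential with the quadratic form `t |v|² + ∑ lam i * (v i) ^ 2` -/
noncomputable def ea (lam : Fin m → ℝ) (y : Fin m → ℝ) (t : ℝ) (v : Fin m → ℝ) : ℂ :=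
  ∏ i, qe (y i) (t + lam i) (v i)

variable (lam : Fin m → ℝ)

lemma ea_norm (y : Fin m → ℝ) (t : ℝ) (v : Fin m → ℝ) : ‖ea lam y t v‖ = 1 := by
  unfold ea
  rw [norm_prod]
  simp [qe_norm]

lemma ea_enorm (y : Fin m → ℝ) (t : ℝ) (v : Fin m → ℝ) : ‖ea lam y t v‖ₑ = 1 := by
  rw [← ofReal_norm, ea_norm, ENNReal.ofReal_one]

lemma ea_meas (y : Fin m → ℝ) (t : ℝ) : Measurable (ea lam y t) := by
  apply Continuous.measurable
  unfold ea qe
  fun_prop

lemma qe_add (y t s v : ℝ) : qe y (t + s) v = qe 0 s v * qe y t v := by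
  unfold qe
  rw [← Complex.exp_add]
  congr 1
  push_cast
  ring

lemma ea_eq (y : Fin m → ℝ) (t : ℝ) (v : Fin m → ℝ) : ea lam y t v = ea lam 0 0 v * em y t v := by
  unfold ea MD.em
  rw [← Finset.prod_mul_distrib]
  apply Finset.prod_congr rfl
  intro i _
  rw [qe_add]
  congr 1
  simp

open Pool.Agent.H728R3.SR in
/-- the averages of the quadratic exponential -/
lemma osc (γ : ℝ) (hγ0 : 0 < γ) (hγ1 : γ ≤ 1) (y : Fin m → ℝ) (t : ℝ) (j : ℕ) :
    ∫⁻ w in CC m, ‖avm j (ea lam y t) w‖ₑ ^ 2 ≤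
      ∏ i, (2 ^ j * AA γ (t + lam i) * Pool.Agent.H728R3.SR.RR γ) := by
  have hm1 : ∀ i, Measurable (fun w : ℝ => ‖(2 : ℂ) ^ j * ∫ z in cell j w,
      qe (y i) (t + lam i) z‖ₑ ^ 2) := by
    intro i
    have hS : MeasurableSet {w : ℝ × ℝ | w.2 ∈ cell j w.1} := cell_meas2 j
    have hq : Measurable (fun z => qe (y i) (t + lam i) z) := by
      apply Continuous.measurable
      unfold qe
      fun_prop
    have e1 : (fun w : ℝ => ∫ z in cell j w, qe (y i) (t + lam i) z) = fun w : ℝ => ∫ z,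
        {w : ℝ × ℝ | w.2 ∈ cell j w.1}.indicator (fun w => qe (y i) (t + lam i) w.2) (w, z) := by
      ext w
      rw [← integral_indicator (cell_meas j w)]
      rfl
    have h2 : Measurable (fun w : ℝ => ∫ z in cell j w, qe (y i) (t + lam i) z) := by
      rw [e1]
      apply StronglyMeasurable.measurable
      exact StronglyMeasurable.integral_prod_right' (f := fun w : ℝ × ℝ =>
        {w : ℝ × ℝ | w.2 ∈ cell j w.1}.indicator (fun w => qe (y i) (t + lam i) w.2) w)
        (((hq.comp measurable_snd).indicator hS).stronglyMeasurable)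
    exact (h2.const_mul _).enorm.pow_const 2
  have e1 : ∀ w ∈ CC m, ‖avm j (ea lam y t) w‖ₑ ^ 2 =
      ∏ i, ‖(2 : ℂ) ^ j * ∫ z in cell j (w i), qe (y i) (t + lam i) z‖ₑ ^ 2 := by
    intro w hw
    have e2 : avm j (ea lam y t) w =
        ∏ i, ((2 : ℂ) ^ j * ∫ z in cell j (w i), qe (y i) (t + lam i) z) := by
      unfold avm
      rw [CC_inter j w hw, Finset.prod_mul_distrib, Finset.prod_const, Finset.card_univ,
        Fintype.card_fin]
      congr 1
      unfold cm ea
      rw [volume_pi, Measure.restrict_pi_pi]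
      exact integral_fintype_prod_eq_prod (fun i z => qe (y i) (t + lam i) z)
    rw [e2, Finset.prod_pow]
    congr 1
    rw [← ofReal_norm, norm_prod, ENNReal.ofReal_prod_of_nonneg (fun _ _ => norm_nonneg _)]
    simp only [ofReal_norm]
  rw [setLIntegral_congr_fun CC_meas e1, ← lintegral_indicator CC_meas]
  have e3 : ∀ w : Fin m → ℝ, (CC m).indicator (fun w : Fin m → ℝ => ∏ i, ‖(2 : ℂ) ^ j *
      ∫ z in cell j (w i), qe (y i) (t + lam i) z‖ₑ ^ 2) w = ∏ i, (Ico (-1 : ℝ) 1).indicator
        (fun w : ℝ => ‖(2 : ℂ) ^ j * ∫ z in cell j w, qe (y i) (t + lam i) z‖ₑ ^ 2) (w i) := by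
    intro w
    by_cases hw : w ∈ CC m
    · rw [indicator_of_mem hw]
      rw [mem_CC] at hw
      apply Finset.prod_congr rfl
      intro i _
      rw [indicator_of_mem (hw i)]
    · rw [indicator_of_notMem hw]
      rw [mem_CC] at hw
      push Not at hw
      obtain ⟨i, hi⟩ := hw
      symm
      apply Finset.prod_eq_zero (Finset.mem_univ i)
      rw [indicator_of_notMem hi]
  simp only [e3]
  rw [lint_prod m (fun i => (Ico (-1 : ℝ) 1).indicator (fun w : ℝ =>
        ‖(2 : ℂ) ^ j * ∫ z in cell j w, qe (y i) (t + lam i) z‖ₑ ^ 2))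
    (fun i => (hm1 i).indicator measurableSet_Ico)]
  apply Finset.prod_le_prod'
  intro i _
  rw [lintegral_indicator measurableSet_Ico]
  exact osc1 γ hγ0 hγ1 (y i) (t + lam i) j

/-- Plancherel -/
lemma LL_planch (G : ℝ → (Fin m → ℝ) → ℂ) (hG : Measurable (Function.uncurry G))
    (hi : Integrable (Function.uncurry G) (volume.prod (nuC m)))
    (X T t : ℝ) (hM : M2 (nuC m) G X T ≠ ∞) :
    ∫⁻ y : Fin m → ℝ, ‖LL G X T (ea lam y t)‖ₑ ^ 2 = M2 (nuC m) G X T := by
  set G' : ℝ → (Fin m → ℝ) → ℂ := fun u v => G u v * ea lam 0 0 v with hG'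
  have hG'm : Measurable (Function.uncurry G') := by
    have h1 : Measurable (fun w : ℝ × (Fin m → ℝ) => ea lam 0 0 w.2) :=
      (ea_meas lam 0 0).comp measurable_snd
    exact hG.mul h1
  have hi' : Integrable (Function.uncurry G') (volume.prod (nuC m)) := by
    refine hi.mono hG'm.aestronglyMeasurable (ae_of_all _ fun w => ?_)
    simp only [Function.uncurry, hG', norm_mul, ea_norm, mul_one]
    exact le_rfl
  have hE : ∀ v, E1 G' X T v = E1 G X T v * ea lam 0 0 v := by
    intro v
    simp only [E1, hG']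
    rw [← integral_mul_const]
    congr 1
    ext u
    ring
  have hM' : M2 (nuC m) G' X T = M2 (nuC m) G X T := by
    unfold M2
    congr 1
    ext v
    rw [hE, enorm_mul, ea_enorm, mul_one]
  have h := MD.LL_planch G' hG'm hi' X T t (by rw [hM']; exact hM)
  rw [hM'] at h
  rw [← h]
  congr 1
  ext y
  congr 2
  unfold LL
  congr 1
  ext w
  rw [ea_eq lam y t]
  simp only [hG']
  ring

end Pool.Agent.Y247.QT
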