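import Mathlib
import Pool.Agent.Y247.QT.A
set_option autoImplicit false

/-! The estimate of one piece: the integral in the space variables and the integral of the weight. -/

namespace Pool.Agent.Y247.QT

open MeasureTheory Set Complex Pool.Agent.W771 Pool.Agent.W771.MD
open scoped ENNReal NNReal FourierTransform

variable {m : ℕ}

/-- the weight -/
noncomputable def VV (lam : Fin m → ℝ) (γ : ℝ) (j : ℕ) (t : ℝ) : ℝ≥0∞ :=
  min (2 ^ m) (∏ i, (2 ^ j * Pool.Agent.H728R3.SR.AA γ (t + lam i) * Pool.Agent.H728R3.SR.RR γ))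

variable (lam : Fin m → ℝ)

lemma VV_le (γ : ℝ) (j : ℕ) (t : ℝ) : VV lam γ j t ≤ 2 ^ m := min_le_left _ _

lemma VV_meas (γ : ℝ) (j : ℕ) : Measurable (VV lam γ j) := by
  unfold VV
  refine measurable_const.min ?_
  refine Finset.measurable_prod _ fun i _ => ?_
  have h : Measurable fun t : ℝ => Pool.Agent.H728R3.SR.AA γ (t + lam i) :=
    (AA_meas γ).comp (measurable_id.add_const _)
  exact (h.const_mul _).mul_const _

/-- the integral in the `y` variable -/
lemma piece_y (q : ℝ) (hq : 2 ≤ q) (γ : ℝ) (hγ0 : 0 < γ) (hγ1 : γ ≤ 1) (j : ℕ)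
    (R : ℝ → (Fin m → ℝ) → ℂ) (hR : Measurable (Function.uncurry R))
    (hz : ∀ u, u ∉ II → ∀ v, R u v = 0) (hN : ∫⁻ u, N2 (nuC m) R u ≠ ∞) (X T t : ℝ) :
    ∫⁻ y, ‖LL (fun u => avm j (R u)) X T (ea lam y t)‖ₑ ^ q ≤ VV lam γ j t ^ ((q - 2) / 2) *
      (M2 (nuC m) (fun u => avm j (R u)) X T ^ (q / 2) + M2 (nuC m) R X T ^ (q / 2)) := by
  set P : ℝ → (Fin m → ℝ) → ℂ := fun u => avm j (R u) with hP
  have hPm : Measurable (Function.uncurry P) := avm_meas j R hR
  have hPz : ∀ u, u ∉ II → ∀ v, P u v = 0 := fun u hu v => avm_zero j _ (hz u hu) v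
  have hPN : ∫⁻ u, N2 (nuC m) P u ≠ ∞ :=
    ne_top_of_le_ne_top hN (lintegral_mono fun u => N2_avm j R hR u)
  have hiR := int_of_N2 R hR hz hN
  have hiP := int_of_N2 P hPm hPz hPN
  set a := M2 (nuC m) P X T with ha
  set b := M2 (nuC m) R X T with hb
  have hat : a ≠ ∞ := ne_top_of_le_ne_top hPN (M2_le_N2 P hPm hPz X T)
  have hbt : b ≠ ∞ := ne_top_of_le_ne_top hN (M2_le_N2 R hR hz X T)
  have s1 : ∀ y, ‖LL P X T (ea lam y t)‖ₑ ^ 2 ≤ a * 2 ^ m := by
    intro y
    refine (LL_cs P hPm hiP X T (ea lam y t) (ea_meas lam y t)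
      (fun v => (ea_norm lam y t v).le)).trans ?_
    simp only [ea_enorm, one_pow]
    rw [lintegral_const, Measure.restrict_apply_univ, CC_vol, one_mul]
  have s2 : ∀ y, ‖LL P X T (ea lam y t)‖ₑ ^ 2 ≤
      b * ∏ i, (2 ^ j * Pool.Agent.H728R3.SR.AA γ (t + lam i) * Pool.Agent.H728R3.SR.RR γ) := by
    intro y
    have hψ' : Measurable (avm j (ea lam y t)) := by
      have h1 : Measurable (Function.uncurry fun _ : ℝ => ea lam y t) :=
        (ea_meas lam y t).comp measurable_snd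
      have h2 := avm_meas j (fun _ : ℝ => ea lam y t) h1
      exact a_meas_l _ h2 0
    have hb' := avm_norm_le j (ea lam y t) (fun v => (ea_norm lam y t v).le)
    rw [hP, LL_avm j R hR hiR hiP X T (ea lam y t) (ea_meas lam y t)
      (fun v => (ea_norm lam y t v).le) hψ' hb']
    refine (LL_cs R hR hiR X T _ hψ' hb').trans ?_
    gcongr
    exact osc lam γ hγ0 hγ1 y t j
  have s3 : ∀ y, ‖LL P X T (ea lam y t)‖ₑ ^ 2 ≤ max a b * VV lam γ j t := by
    intro y
    unfold VV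
    rw [mul_min]
    apply le_min
    · exact (s1 y).trans (mul_le_mul' (le_max_left _ _) le_rfl)
    · exact (s2 y).trans (mul_le_mul' (le_max_right _ _) le_rfl)
  have hq0 : 0 ≤ (q - 2) / 2 := by linarith
  have hct : (max a b * VV lam γ j t) ^ ((q - 2) / 2) ≠ ∞ := by
    apply ENNReal.rpow_ne_top_of_nonneg hq0
    apply ENNReal.mul_ne_top
    · rcases max_choice a b with h | h
      · rw [h]; exact hat
      · rw [h]; exact hbt
    · exact ne_top_of_le_ne_top (ENNReal.pow_ne_top (by norm_num)) (VV_le lam γ j t)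
  calc ∫⁻ y, ‖LL P X T (ea lam y t)‖ₑ ^ q ≤
      ∫⁻ y, (max a b * VV lam γ j t) ^ ((q - 2) / 2) * ‖LL P X T (ea lam y t)‖ₑ ^ 2 := by
        apply lintegral_mono
        intro y
        simp only
        have e1 : ‖LL P X T (ea lam y t)‖ₑ ^ q = (‖LL P X T (ea lam y t)‖ₑ ^ 2) ^ ((q - 2) / 2) *
            ‖LL P X T (ea lam y t)‖ₑ ^ 2 := by
          rw [← ENNReal.rpow_natCast, ← ENNReal.rpow_mul, ← ENNReal.rpow_add_of_nonneg _ _
            (by push_cast; linarith) (by positivity)]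
          congr 1
          push_cast
          ring
        rw [e1]
        gcongr
        exact s3 y
    _ = (max a b * VV lam γ j t) ^ ((q - 2) / 2) * a := by
        rw [lintegral_const_mul' _ _ hct, LL_planch lam P hPm hiP X T t hat]
    _ ≤ (max a b * VV lam γ j t) ^ ((q - 2) / 2) * max a b := by
        gcongr
        exact le_max_left _ _
    _ = VV lam γ j t ^ ((q - 2) / 2) * max a b ^ (q / 2) := by
        have e : q / 2 = (q - 2) / 2 + 1 := by ring
        rw [ENNReal.mul_rpow_of_nonneg _ _ hq0, e, ENNReal.rpow_add_of_nonneg _ _ hq0 zero_le_one,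
          ENNReal.rpow_one]
        ring
    _ ≤ _ := by
        gcongr
        rcases max_choice a b with h | h
        · rw [h]; exact le_self_add
        · rw [h]; exact le_add_self

open Pool.Agent.H728R3.SR in
/-- Hölder's inequality for the product of the weights -/
lemma prod_AA (hm : 1 ≤ m) (γ η : ℝ) :
    ∫⁻ t, ∏ i : Fin m, (AA γ (t + lam i) ^ (1 + η)) ^ (1 / (m : ℝ)) ≤ ∫⁻ t, AA γ t ^ (1 + η) := by
  have hm0 : (0 : ℝ) < m := by exact_mod_cast hm
  have hsum : ∑ _i : Fin m, (1 / (m : ℝ)) = 1 := by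
    rw [Finset.sum_const, Finset.card_univ, Fintype.card_fin, nsmul_eq_mul]
    field_simp
  have h := ENNReal.lintegral_prod_norm_pow_le (μ := (volume : Measure ℝ)) (Finset.univ : Finset (Fin m))
    (f := fun i t => AA γ (t + lam i) ^ (1 + η))
    (fun i _ => (((AA_meas γ).comp (measurable_id.add_const (lam i))).pow_const _).aemeasurable)
    hsum (fun i _ => by positivity)
  refine h.trans (le_of_eq ?_)
  have e : ∀ i : Fin m, ∫⁻ t, AA γ (t + lam i) ^ (1 + η) = ∫⁻ t, AA γ t ^ (1 + η) := by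
    intro i
    exact lintegral_add_right_eq_self (μ := (volume : Measure ℝ)) (fun t => AA γ t ^ (1 + η)) (lam i)
  simp only [e]
  rw [Finset.prod_const, Finset.card_univ, Fintype.card_fin, ← ENNReal.rpow_natCast,
    ← ENNReal.rpow_mul]
  rw [one_div, inv_mul_cancel₀ hm0.ne', ENNReal.rpow_one]

open Pool.Agent.H728R3.SR in
/-- the integral of the weight -/
lemma VV_int (hm : 1 ≤ m) (q η : ℝ) (hη : 0 < η)
    (hκ : 1 + η ≤ (m + 1) * (q - 2) / 2) : ∃ γ : ℝ, 0 < γ ∧ γ ≤ 1 ∧ ∃ C : ℝ≥0,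
    ∀ (lam : Fin m → ℝ) (j : ℕ),
    ∫⁻ t, (VV lam γ j t ^ ((q - 2) / 2)) ^ (((m : ℝ) + 1) / m) ≤
      C * (2 : ℝ≥0∞) ^ ((1 + η) * (j : ℝ)) := by
  have hm0 : (0 : ℝ) < m := by
    have : (1 : ℝ) ≤ m := by exact_mod_cast hm
    linarith
  set κ : ℝ := (m + 1) * (q - 2) / 2 with hκd
  have hκ0 : 0 < κ := by linarith
  set γ : ℝ := η / (1 + η) with hγ
  have hγ0 : 0 < γ := by positivity
  have hγ1 : γ ≤ 1 := by
    rw [hγ, div_le_one (by linarith)]
    linarith
  have hγη : 1 < (1 - γ / 2) * (1 + η) := by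
    have : γ * (1 + η) = η := by
      rw [hγ]
      field_simp
    nlinarith
  have hI := AA_int γ η hγ0 hγ1 hη hγη
  set θ : ℝ := (1 + η) / κ with hθ
  have hθ0 : 0 ≤ θ := by positivity
  have hθ1 : θ ≤ 1 := by
    rw [hθ, div_le_one hκ0]
    exact hκ
  set r : ℝ := (q - 2) / 2 * (((m : ℝ) + 1) / m) with hr
  have hrκ : m * r = κ := by
    rw [hr, hκd]
    field_simp
  have hr0 : 0 < r := by
    by_contra hc
    push Not at hc
    nlinarith
  have hθr : θ * r = (1 + η) * (1 / m) := by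
    have : m * (θ * r) = θ * (m * r) := by ring
    rw [hrκ, hθ] at this
    have h2 : (1 + η) / κ * κ = 1 + η := by field_simp
    rw [h2] at this
    rw [mul_one_div, eq_div_iff hm0.ne', ← this, hθ]
    ring
  have hRR := RR_ne γ hγ0
  set D : ℝ≥0∞ := ((2 : ℝ≥0∞) ^ m) ^ ((1 - θ) * r) * (Pool.Agent.H728R3.SR.RR γ ^ (1 + η) *
    ∫⁻ t, AA γ t ^ (1 + η)) with hD
  have hDt : D ≠ ∞ := by
    apply ENNReal.mul_ne_top
    · apply ENNReal.rpow_ne_top_of_nonneg (mul_nonneg (by linarith) hr0.le)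
      exact ENNReal.pow_ne_top (by norm_num)
    · exact ENNReal.mul_ne_top (ENNReal.rpow_ne_top_of_nonneg (by linarith) hRR) hI
  refine ⟨γ, hγ0, hγ1, D.toNNReal, fun lam j => ?_⟩
  rw [ENNReal.coe_toNNReal hDt]
  have hc : (((2 : ℝ≥0∞) ^ m) ^ ((1 - θ) * r) * ((2 : ℝ≥0∞) ^ ((1 + η) * (j : ℝ)) *
        Pool.Agent.H728R3.SR.RR γ ^ (1 + η))) ≠ ∞ := by
    apply ENNReal.mul_ne_top
    · apply ENNReal.rpow_ne_top_of_nonneg (mul_nonneg (by linarith) hr0.le)
      exact ENNReal.pow_ne_top (by norm_num)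
    · apply ENNReal.mul_ne_top
      · rw [← ofReal_two_rpow]
        exact ENNReal.ofReal_ne_top
      · exact ENNReal.rpow_ne_top_of_nonneg (by linarith) hRR
  calc ∫⁻ t, (VV lam γ j t ^ ((q - 2) / 2)) ^ (((m : ℝ) + 1) / m) ≤
      ∫⁻ t, (((2 : ℝ≥0∞) ^ m) ^ ((1 - θ) * r) * ((2 : ℝ≥0∞) ^ ((1 + η) * (j : ℝ)) *
        Pool.Agent.H728R3.SR.RR γ ^ (1 + η))) *
          ∏ i : Fin m, (AA γ (t + lam i) ^ (1 + η)) ^ (1 / (m : ℝ)) := by
        apply lintegral_mono
        intro t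
        simp only
        rw [← ENNReal.rpow_mul, ← hr]
        refine (min_rpow_le _ _ θ r hθ0 hθ1 hr0.le).trans (le_of_eq ?_)
        have e : (∏ i : Fin m, (2 ^ j * AA γ (t + lam i) * Pool.Agent.H728R3.SR.RR γ)) ^ (θ * r) =
            (2 : ℝ≥0∞) ^ ((1 + η) * (j : ℝ)) * Pool.Agent.H728R3.SR.RR γ ^ (1 + η) *
              ∏ i : Fin m, (AA γ (t + lam i) ^ (1 + η)) ^ (1 / (m : ℝ)) := by
          have e0 : ∀ z : ℝ≥0∞, (z ^ (1 + η)) ^ (1 / (m : ℝ)) = z ^ (θ * r) := by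
            intro z
            rw [← ENNReal.rpow_mul, hθr]
          have e1 : ∀ i : Fin m, (2 ^ j * AA γ (t + lam i) * Pool.Agent.H728R3.SR.RR γ) ^ (θ * r) =
              (((2 : ℝ≥0∞) ^ j) ^ (θ * r) * Pool.Agent.H728R3.SR.RR γ ^ (θ * r)) *
                AA γ (t + lam i) ^ (θ * r) := by
            intro i
            have hθr0 : 0 ≤ θ * r := mul_nonneg hθ0 hr0.le
            rw [ENNReal.mul_rpow_of_nonneg _ _ hθr0, ENNReal.mul_rpow_of_nonneg _ _ hθr0]
            ring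
          rw [← ENNReal.prod_rpow_of_nonneg (mul_nonneg hθ0 hr0.le)]
          simp only [e0, e1]
          rw [Finset.prod_mul_distrib, Finset.prod_const, Finset.card_univ, Fintype.card_fin,
            mul_pow]
          congr 1
          congr 1
          · rw [← ENNReal.rpow_natCast 2 j, ← ENNReal.rpow_mul, ← ENNReal.rpow_natCast,
              ← ENNReal.rpow_mul, hθr]
            congr 1
            field_simp
          · rw [← ENNReal.rpow_natCast, ← ENNReal.rpow_mul, hθr]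
            congr 1
            field_simp
        rw [e]
        ring
    _ = (((2 : ℝ≥0∞) ^ m) ^ ((1 - θ) * r) * ((2 : ℝ≥0∞) ^ ((1 + η) * (j : ℝ)) *
        Pool.Agent.H728R3.SR.RR γ ^ (1 + η))) *
          ∫⁻ t, ∏ i : Fin m, (AA γ (t + lam i) ^ (1 + η)) ^ (1 / (m : ℝ)) := by
        rw [lintegral_const_mul' _ _ hc]
    _ ≤ (((2 : ℝ≥0∞) ^ m) ^ ((1 - θ) * r) * ((2 : ℝ≥0∞) ^ ((1 + η) * (j : ℝ)) *
        Pool.Agent.H728R3.SR.RR γ ^ (1 + η))) * ∫⁻ t, AA γ t ^ (1 + η) := by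
        exact mul_le_mul' le_rfl (prod_AA lam hm γ η)
    _ = _ := by
        rw [hD]
        ring

end Pool.Agent.Y247.QT
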