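import Mathlib
import Pool.Agent.Y247.QT.B
set_option autoImplicit false

/-! The estimate of one piece, the decomposition into pieces and their sum. -/

namespace Pool.Agent.Y247.QT

open MeasureTheory Set Complex Pool.Agent.W771 Pool.Agent.W771.MD
open scoped ENNReal NNReal FourierTransform

variable {m : ℕ}

/-- **the estimate of one piece** -/
theorem layer (hm : 1 ≤ m) (q p η : ℝ) (hη : 0 < η) (hκ : 1 + η ≤ (m + 1) * (q - 2) / 2)
    (hp2 : 2 ≤ p) (hp : (m + 1) * q < p * ((m + 1) * (q - 1) - 2)) : ∃ C : ℝ≥0, ∀ (lam : Fin m → ℝ) (j : ℕ)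
    (R : ℝ → (Fin m → ℝ) → ℂ), Measurable (Function.uncurry R) →
    (∀ u, u ∉ II → ∀ v, R u v = 0) → ∀ A : ℝ≥0∞, A ≠ 0 → A ≠ ∞ →
    (∫⁻ u in II, N2 (nuC m) R u ^ (p / 2) ≤ A ^ p) →
    ∫⁻ t : ℝ, ∫⁻ x : ℝ, ∫⁻ y, ‖LL (fun u => avm j (R u)) (-4 * Real.pi * x) (-8 * Real.pi * t)
      (ea lam y t)‖ₑ ^ q ≤ C * ((2 : ℝ≥0∞) ^ ((1 + η) * (m / (m + 1)) * (j : ℝ)) * A ^ q) := by
  have hm0 : (1 : ℝ) ≤ m := by exact_mod_cast hm
  have hq2 : 2 < q := by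
    by_contra hc
    push Not at hc
    nlinarith
  obtain ⟨γ, hγ0, hγ1, C1, hC1⟩ := VV_int hm q η hη hκ
  obtain ⟨C2, hC2⟩ := oneVar_hom (m + 1) (by omega) q p (by push_cast; linarith) (by linarith)
    (by push_cast; linarith)
  set D : ℝ≥0∞ := (C1 : ℝ≥0∞) ^ ((m : ℝ) / (m + 1)) * (2 * (C2 : ℝ≥0∞) ^ (1 / ((m : ℝ) + 1)))
    with hD
  have hDt : D ≠ ∞ := by
    apply ENNReal.mul_ne_top
    · exact ENNReal.rpow_ne_top_of_nonneg (by positivity) ENNReal.coe_ne_top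
    · apply ENNReal.mul_ne_top (by norm_num)
      exact ENNReal.rpow_ne_top_of_nonneg (by positivity) ENNReal.coe_ne_top
  refine ⟨D.toNNReal, ?_⟩
  intro lam j R hR hz A hA0 hAt hN
  rw [ENNReal.coe_toNNReal hDt]
  set P : ℝ → (Fin m → ℝ) → ℂ := fun u => avm j (R u) with hP
  have hPm : Measurable (Function.uncurry P) := avm_meas j R hR
  have hPz : ∀ u, u ∉ II → ∀ v, P u v = 0 := fun u hu v => avm_zero j _ (hz u hu) v
  have hPN : ∫⁻ u in II, N2 (nuC m) P u ^ (p / 2) ≤ A ^ p := by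
    refine le_trans (lintegral_mono fun u => ?_) hN
    exact ENNReal.rpow_le_rpow (N2_avm j R hR u) (by linarith)
  have hRN : ∫⁻ u, N2 (nuC m) R u ≠ ∞ :=
    ne_top_of_le_ne_top (ENNReal.rpow_ne_top_of_nonneg (by norm_num) hAt)
      (N2_of_p R hR hz p hp2 A hN)
  -- notation
  set V : ℝ → ℝ≥0∞ := fun t => VV lam γ j t ^ ((q - 2) / 2) with hV
  have hVVm : Measurable (VV lam γ j) := VV_meas lam γ j
  have hVm : Measurable V := hVVm.pow_const _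
  have hVt : ∀ t, V t ≠ ∞ := fun t => ENNReal.rpow_ne_top_of_nonneg (by linarith)
    (ne_top_of_le_ne_top (ENNReal.pow_ne_top (by norm_num)) (VV_le lam γ j t))
  have hmeas : ∀ G : ℝ → (Fin m → ℝ) → ℂ, Measurable (Function.uncurry G) →
      Measurable (fun w : ℝ × ℝ => M2 (nuC m) G (-4 * Real.pi * w.1) (-8 * Real.pi * w.2) ^ (q / 2)) := by
    intro G hG
    have h1 := M2_meas (nuC m) G hG
    have h2 : Measurable (fun w : ℝ × ℝ => (-4 * Real.pi * w.1, -8 * Real.pi * w.2)) :=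
      (measurable_fst.const_mul _).prodMk (measurable_snd.const_mul _)
    have h3 := Measurable.comp h1 h2
    exact h3.pow_const _
  set Z : (ℝ → (Fin m → ℝ) → ℂ) → ℝ → ℝ≥0∞ := fun G t =>
    ∫⁻ x : ℝ, M2 (nuC m) G (-4 * Real.pi * x) (-8 * Real.pi * t) ^ (q / 2) with hZ
  have hZm : ∀ G : ℝ → (Fin m → ℝ) → ℂ, Measurable (Function.uncurry G) → Measurable (Z G) :=
    fun G hG => Measurable.lintegral_prod_left' (hmeas G hG)
  have hx : ∀ G : ℝ → (Fin m → ℝ) → ℂ, Measurable (Function.uncurry G) → ∀ t : ℝ,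
      Measurable (fun x : ℝ => M2 (nuC m) G (-4 * Real.pi * x) (-8 * Real.pi * t) ^ (q / 2)) := by
    intro G hG t
    have h2 : Measurable (fun x : ℝ => (x, t)) := measurable_id.prodMk measurable_const
    have h3 := Measurable.comp (hmeas G hG) h2
    exact h3
  have one : ∀ G : ℝ → (Fin m → ℝ) → ℂ, Measurable (Function.uncurry G) →
      (∀ u, u ∉ II → ∀ v, G u v = 0) → (∫⁻ u in II, N2 (nuC m) G u ^ (p / 2) ≤ A ^ p) →
      ∫⁻ t, V t * Z G t ≤ ((C1 : ℝ≥0∞) ^ ((m : ℝ) / (m + 1)) * (2 : ℝ≥0∞) ^ ((1 + η) *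
        (m / (m + 1)) * (j : ℝ))) * ((C2 : ℝ≥0∞) ^ (1 / ((m : ℝ) + 1)) * A ^ q) := by
    intro G hG hGz hGN
    refine (time_n (m + 1) (by omega) V (Z G) hVm (hZm G hG)).trans ?_
    have h1 := hC1 lam j
    have h2 := hC2 (Fin m → ℝ) (nuC m) G hG hGz A hA0 hAt hGN
    have e1 : ((m + 1 : ℕ) : ℝ) / ((m + 1 : ℕ) - 1) = ((m : ℝ) + 1) / m := by
      push_cast
      ring
    have e2 : (((m + 1 : ℕ) : ℝ) - 1) / ((m + 1 : ℕ)) = (m : ℝ) / (m + 1) := by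
      push_cast
      ring
    have e3 : 1 / ((m + 1 : ℕ) : ℝ) = 1 / ((m : ℝ) + 1) := by push_cast; ring
    rw [e1, e2, e3]
    calc (∫⁻ t, V t ^ (((m : ℝ) + 1) / m)) ^ ((m : ℝ) / (m + 1)) *
          (∫⁻ t, Z G t ^ (m + 1)) ^ (1 / ((m : ℝ) + 1)) ≤
        (C1 * (2 : ℝ≥0∞) ^ ((1 + η) * (j : ℝ))) ^ ((m : ℝ) / (m + 1)) *
          (C2 * A ^ (q * ((m + 1 : ℕ) : ℝ))) ^ (1 / ((m : ℝ) + 1)) := by
          gcongr
      _ = _ := by
          rw [ENNReal.mul_rpow_of_nonneg _ _ (by positivity),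
            ENNReal.mul_rpow_of_nonneg _ _ (by positivity), ← ENNReal.rpow_mul, ← ENNReal.rpow_mul]
          congr 3
          · ring
          · push_cast
            field_simp
  calc ∫⁻ t : ℝ, ∫⁻ x : ℝ, ∫⁻ y, ‖LL P (-4 * Real.pi * x) (-8 * Real.pi * t) (ea lam y t)‖ₑ ^ q ≤
      ∫⁻ t : ℝ, ∫⁻ x : ℝ, V t * (M2 (nuC m) P (-4 * Real.pi * x) (-8 * Real.pi * t) ^ (q / 2) +
        M2 (nuC m) R (-4 * Real.pi * x) (-8 * Real.pi * t) ^ (q / 2)) := by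
        refine lintegral_mono fun t => lintegral_mono fun x => ?_
        exact piece_y lam q hq2.le γ hγ0 hγ1 j R hR hz hRN _ _ t
    _ = ∫⁻ t : ℝ, (V t * Z P t + V t * Z R t) := by
        congr 1
        ext t
        rw [lintegral_const_mul' _ _ (hVt t), lintegral_add_left (hx P hPm t), mul_add]
    _ = (∫⁻ t : ℝ, V t * Z P t) + ∫⁻ t : ℝ, V t * Z R t := by
        exact lintegral_add_left (hVm.mul (hZm P hPm)) _
    _ ≤ _ := add_le_add (one P hPm hPz hPN) (one R hR hz hN)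
    _ = _ := by
        rw [hD]
        ring

/-- the pointwise bound by the sum of the pieces -/
lemma LL_sum (lam : Fin m → ℝ) (F : ℝ → (Fin m → ℝ) → ℂ) (hF : Measurable (Function.uncurry F))
    (hz : ∀ u, u ∉ II → ∀ v, F u v = 0)
    (hfin : ∀ u, N2 (nuC m) F u ≠ ∞) (p s : ℝ) (hp : 2 ≤ p) (hs0 : 0 < s)
    (K : ℝ≥0∞) (hK : K ≠ ∞) (hR : ∀ j, ∫⁻ u in II, N2 (nuC m) (Rj F j) u ^ (p / 2) ≤
      (2 ^ (m + 1) * K * (2 : ℝ≥0∞) ^ (-s * (j : ℝ))) ^ p) (X T t : ℝ) (y : Fin m → ℝ) :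
    ‖LL F X T (ea lam y t)‖ₑ ≤ ∑' j : ℕ, ‖LL (fun u => avm j (Rj F j u)) X T (ea lam y t)‖ₑ := by
  have hRm := Rj_meas F hF
  have hRz := Rj_zero F hz
  have htop : ∀ j : ℕ, (2 ^ (m + 1) * K * (2 : ℝ≥0∞) ^ (-s * (j : ℝ))) ≠ ∞ := by
    intro j
    apply ENNReal.mul_ne_top
    · exact ENNReal.mul_ne_top (ENNReal.pow_ne_top (by norm_num)) hK
    · rw [← ofReal_two_rpow]
      exact ENNReal.ofReal_ne_top
  have hR2 : ∀ j, ∫⁻ u, N2 (nuC m) (Rj F j) u ≤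
      (2 ^ (m + 1) * K * (2 : ℝ≥0∞) ^ (-s * (j : ℝ))) ^ (2 : ℝ) := fun j =>
    N2_of_p (Rj F j) (hRm j) (hRz j) p hp _ (hR j)
  have hR2t : ∀ j, ∫⁻ u, N2 (nuC m) (Rj F j) u ≠ ∞ := fun j =>
    ne_top_of_le_ne_top (ENNReal.rpow_ne_top_of_nonneg (by norm_num) (htop j)) (hR2 j)
  have hiR : ∀ j, Integrable (Function.uncurry (Rj F j)) (volume.prod (nuC m)) := fun j =>
    int_of_N2 _ (hRm j) (hRz j) (hR2t j)
  have hPm : ∀ j, Measurable (Function.uncurry fun u => avm j (Rj F j u)) := fun j =>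
    avm_meas j _ (hRm j)
  have hiP : ∀ j, Integrable (Function.uncurry fun u => avm j (Rj F j u)) (volume.prod (nuC m)) := by
    intro j
    apply int_of_N2 _ (hPm j) (fun u hu v => avm_zero j _ (hRz j u hu) v)
    exact ne_top_of_le_ne_top (hR2t j) (lintegral_mono fun u => N2_avm j _ (hRm j) u)
  have hem := ea_meas lam y t
  have hemb : ∀ v, ‖ea lam y t v‖ ≤ 1 := fun v => (ea_norm lam y t v).le
  have hn : ∀ n : ℕ, ‖LL F X T (ea lam y t)‖ₑ ≤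
      2 ^ m * (2 ^ (m + 1) * K * (2 : ℝ≥0∞) ^ (-s * ((n + 1 : ℕ) : ℝ))) +
        ∑' j : ℕ, ‖LL (fun u => avm j (Rj F j u)) X T (ea lam y t)‖ₑ := by
    intro n
    have e1 : LL F X T (ea lam y t) = LL (Rj F (n + 1)) X T (ea lam y t) +
        ∑ j ∈ Finset.range (n + 1), LL (fun u => avm j (Rj F j u)) X T (ea lam y t) := by
      unfold LL
      rw [← integral_finsetSum, ← integral_add]
      · apply integral_congr_ae
        have hCC : ∀ᵐ w ∂((volume : Measure ℝ).prod (nuC m)), w.2 ∈ CC m := by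
          have h1 : ∀ᵐ v ∂(nuC m), v ∈ CC m := ae_restrict_mem CC_meas
          exact Measure.quasiMeasurePreserving_snd.ae h1
        filter_upwards [hCC] with w hw
        have h2 := sum_P F hF hfin n w.1 w.2 hw
        rw [← Finset.sum_mul, h2]
        simp only [Rj]
        ring
      · exact LL_int _ (hiR (n + 1)) X T _ hem hemb
      · exact integrable_finsetSum _ fun j _ => LL_int _ (hiP j) X T _ hem hemb
      · intro j _
        exact LL_int _ (hiP j) X T _ hem hemb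
    rw [e1]
    refine (enorm_add_le _ _).trans ?_
    gcongr
    · have h1 := LL_cs (Rj F (n + 1)) (hRm _) (hiR _) X T (ea lam y t) hem hemb
      simp only [ea_enorm, one_pow] at h1
      rw [lintegral_const, Measure.restrict_apply_univ, CC_vol, one_mul] at h1
      have h2 := (M2_le_N2 (Rj F (n + 1)) (hRm _) (hRz _) X T).trans (hR2 (n + 1))
      set A : ℝ≥0∞ := 2 ^ (m + 1) * K * (2 : ℝ≥0∞) ^ (-s * ((n + 1 : ℕ) : ℝ)) with hA
      have h3 : ‖LL (Rj F (n + 1)) X T (ea lam y t)‖ₑ ^ 2 ≤ (2 ^ m * A) ^ 2 := by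
        refine h1.trans ?_
        rw [ENNReal.rpow_ofNat] at h2
        calc M2 (nuC m) (Rj F (n + 1)) X T * 2 ^ m ≤ A ^ 2 * 2 ^ m := by gcongr
          _ ≤ A ^ 2 * (2 ^ m) ^ 2 := by
              refine mul_le_mul' le_rfl ?_
              rw [sq]
              exact le_mul_of_one_le_left' (one_le_pow₀ (by norm_num))
          _ = _ := by ring
      exact (ENNReal.pow_le_pow_left_iff two_ne_zero).mp h3
    · refine (enorm_sum_le _ _).trans ?_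
      exact ENNReal.sum_le_tsum _
  have hlim : Filter.Tendsto (fun n : ℕ => 2 ^ m * (2 ^ (m + 1) * K *
      (2 : ℝ≥0∞) ^ (-s * ((n + 1 : ℕ) : ℝ))) +
        ∑' j : ℕ, ‖LL (fun u => avm j (Rj F j u)) X T (ea lam y t)‖ₑ) Filter.atTop
      (nhds (2 ^ m * (2 ^ (m + 1) * K * 0) +
        ∑' j : ℕ, ‖LL (fun u => avm j (Rj F j u)) X T (ea lam y t)‖ₑ)) := by
    apply Filter.Tendsto.add _ tendsto_const_nhds
    have h1 : Filter.Tendsto (fun n : ℕ => (2 : ℝ≥0∞) ^ (-s * ((n + 1 : ℕ) : ℝ))) Filter.atTop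
        (nhds 0) := by
      have h2 : ∀ n : ℕ, (2 : ℝ≥0∞) ^ (-s * ((n + 1 : ℕ) : ℝ)) = ((2 : ℝ≥0∞) ^ (-s)) ^ (n + 1) := by
        intro n
        rw [ENNReal.rpow_mul, ENNReal.rpow_natCast]
      simp only [h2]
      have h3 : (2 : ℝ≥0∞) ^ (-s) < 1 :=
        ENNReal.rpow_lt_one_of_one_lt_of_neg (by norm_num) (by linarith)
      exact (Filter.tendsto_add_atTop_iff_nat 1).mpr
        (ENNReal.tendsto_pow_atTop_nhds_zero_of_lt_one h3)
    apply ENNReal.Tendsto.const_mul _ (Or.inr (ENNReal.pow_ne_top (by norm_num)))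
    exact ENNReal.Tendsto.const_mul h1
      (Or.inr (ENNReal.mul_ne_top (ENNReal.pow_ne_top (by norm_num)) hK))
  rw [mul_zero, mul_zero, zero_add] at hlim
  exact ge_of_tendsto' hlim hn

lemma LL_meas (lam : Fin m → ℝ) (G : ℝ → (Fin m → ℝ) → ℂ) (hG : Measurable (Function.uncurry G)) :
    Measurable (fun z : ℝ × (Fin m → ℝ) × ℝ =>
      LL G (-4 * Real.pi * z.1) (-8 * Real.pi * z.2.2) (ea lam z.2.1 z.2.2)) := by
  unfold LL
  apply StronglyMeasurable.measurable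
  apply StronglyMeasurable.integral_prod_right'
    (f := fun w : (ℝ × (Fin m → ℝ) × ℝ) × (ℝ × (Fin m → ℝ)) => G w.2.1 w.2.2 *
      (ph (-4 * Real.pi * w.1.1) (-8 * Real.pi * w.1.2.2) w.2.1 * ea lam w.1.2.1 w.1.2.2 w.2.2))
  apply Measurable.stronglyMeasurable
  apply Measurable.mul
  · have h : Measurable (fun w : (ℝ × (Fin m → ℝ) × ℝ) × (ℝ × (Fin m → ℝ)) => (w.2.1, w.2.2)) := by
      fun_prop
    exact hG.comp h
  · apply Continuous.measurable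
    unfold ph ea qe
    fun_prop

/-- **the main estimate** -/
theorem mainLL (hm : 1 ≤ m) (q p : ℝ) (hq : 2 * ((m : ℝ) + 2) / (m + 1) < q) (hp2 : 2 ≤ p)
    (hp : (m + 1) * q < p * ((m + 1) * (q - 1) - 2)) : ∃ C : ℝ≥0, ∀ lam : Fin m → ℝ,
    ∀ F : ℝ → (Fin m → ℝ) → ℂ, Measurable (Function.uncurry F) →
    (∀ u, u ∉ II → ∀ v, F u v = 0) → (∀ u, N2 (nuC m) F u ≠ ∞) →
    ∀ K : ℝ≥0∞, K ≠ 0 → K ≠ ∞ → (∫⁻ u in II, N2 (nuC m) F u ^ (p / 2) ≤ K ^ p) →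
    (∀ h : Fin m → ℝ, ‖h‖ ≤ 1 → ∫⁻ u in II, RM (F u) h ^ (p / 2) ≤
      (K * ENNReal.ofReal (‖h‖ ^ ((m : ℝ) / (2 * (m + 2))))) ^ p) →
    ∫⁻ t : ℝ, ∫⁻ x : ℝ, ∫⁻ y, ‖LL F (-4 * Real.pi * x) (-8 * Real.pi * t) (ea lam y t)‖ₑ ^ q ≤
      C * K ^ q := by
  have hm0 : (1 : ℝ) ≤ m := by exact_mod_cast hm
  set ρ : ℝ := q * (m + 1) / (2 * (m + 2)) with hρ
  have hρ1 : 1 < ρ := by
    rw [hρ, lt_div_iff₀ (by linarith)]
    rw [div_lt_iff₀ (by linarith)] at hq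
    linarith
  have hqρ : q = 2 * (m + 2) * ρ / (m + 1) := by
    rw [hρ]
    field_simp
  have hq0 : 0 < q := by
    rw [hqρ]
    positivity
  set η : ℝ := (ρ - 1) / 2 with hη
  have hη0 : 0 < η := by linarith
  have hκ : 1 + η ≤ (m + 1) * (q - 2) / 2 := by
    have e1 : (m + 1) * (q - 2) / 2 = (m + 2) * ρ - (m + 1) := by
      rw [hqρ]
      field_simp
    rw [e1, hη]
    nlinarith
  set s : ℝ := (m : ℝ) / (2 * (m + 2)) with hs
  have hs0 : 0 < s := by positivity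
  have hs1 : s ≤ 1 := by
    rw [hs, div_le_one (by positivity)]
    linarith
  set ε : ℝ := m * (ρ - 1) / (4 * (m + 1)) with hε
  have hε0 : 0 < ε := by
    have : 0 < ρ - 1 := by linarith
    positivity
  have hexp : ε + (1 + η) * (m / (m + 1)) - s * q = -ε := by
    rw [hε, hη, hs, hqρ]
    field_simp
    ring
  obtain ⟨C1, hC1⟩ := layer hm q p η hη0 hκ hp2 hp
  obtain ⟨C0, hC0⟩ := sum_pow' q ε hq0 hε0
  set D : ℝ≥0∞ := C0 * (C1 * ((2 : ℝ≥0∞) ^ (m + 1)) ^ q * ∑' j : ℕ, (2 : ℝ≥0∞) ^ (-ε * (j : ℝ)))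
    with hD
  have hDt : D ≠ ∞ := by
    apply ENNReal.mul_ne_top ENNReal.coe_ne_top
    apply ENNReal.mul_ne_top _ (tsum_two_ne_top _ (by linarith))
    apply ENNReal.mul_ne_top ENNReal.coe_ne_top
    exact ENNReal.rpow_ne_top_of_nonneg hq0.le (ENNReal.pow_ne_top (by norm_num))
  refine ⟨D.toNNReal, ?_⟩
  intro lam F hF hz hfin K hK0 hKt hN hM
  rw [ENNReal.coe_toNNReal hDt]
  have hR := Rj_size F hF hfin p s hp2 hs0.le hs1 K hN hM
  have hRm := Rj_meas F hF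
  have hRz := Rj_zero F hz
  set X : ℕ → ℝ → (Fin m → ℝ) → ℝ → ℝ≥0∞ := fun j x y t =>
    ‖LL (fun u => avm j (Rj F j u)) (-4 * Real.pi * x) (-8 * Real.pi * t) (ea lam y t)‖ₑ with hX
  have hXm : ∀ j, Measurable (fun z : ℝ × (Fin m → ℝ) × ℝ => X j z.1 z.2.1 z.2.2) := fun j =>
    (LL_meas lam _ (avm_meas j _ (hRm j))).enorm
  set A : ℕ → ℝ≥0∞ := fun j => 2 ^ (m + 1) * K * (2 : ℝ≥0∞) ^ (-s * (j : ℝ)) with hA
  have htw : ∀ r : ℝ, (2 : ℝ≥0∞) ^ r ≠ 0 ∧ (2 : ℝ≥0∞) ^ r ≠ ∞ := by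
    intro r
    rw [← ofReal_two_rpow]
    refine ⟨?_, ENNReal.ofReal_ne_top⟩
    rw [Ne, ENNReal.ofReal_eq_zero, not_le]
    positivity
  have hA0 : ∀ j, A j ≠ 0 := by
    intro j
    refine mul_ne_zero (mul_ne_zero (pow_ne_zero _ two_ne_zero) hK0) (htw _).1
  have hAt : ∀ j, A j ≠ ∞ := by
    intro j
    exact ENNReal.mul_ne_top (ENNReal.mul_ne_top (ENNReal.pow_ne_top (by norm_num)) hKt) (htw _).2
  have hlay : ∀ j, ∫⁻ t, ∫⁻ x, ∫⁻ y, X j x y t ^ q ≤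
      C1 * ((2 : ℝ≥0∞) ^ ((1 + η) * (m / (m + 1)) * (j : ℝ)) * A j ^ q) := fun j =>
    hC1 lam j (Rj F j) (hRm j) (hRz j) (A j) (hA0 j) (hAt j) (hR j)
  calc ∫⁻ t : ℝ, ∫⁻ x : ℝ, ∫⁻ y, ‖LL F (-4 * Real.pi * x) (-8 * Real.pi * t) (ea lam y t)‖ₑ ^ q ≤
      ∫⁻ t, ∫⁻ x, ∫⁻ y, C0 * ∑' j : ℕ, (2 : ℝ≥0∞) ^ (ε * (j : ℝ)) * X j x y t ^ q := by
        refine lintegral_mono fun t => lintegral_mono fun x => lintegral_mono fun y => ?_
        refine le_trans ?_ (hC0 _)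
        apply ENNReal.rpow_le_rpow _ hq0.le
        exact LL_sum lam F hF hz hfin p s hp2 hs0 K hKt hR _ _ t y
    _ = C0 * ∑' j : ℕ, (2 : ℝ≥0∞) ^ (ε * (j : ℝ)) * ∫⁻ t, ∫⁻ x, ∫⁻ y, X j x y t ^ q :=
        lintM X hXm q C0 (fun j => (2 : ℝ≥0∞) ^ (ε * (j : ℝ)))
    _ ≤ C0 * ∑' j : ℕ, (2 : ℝ≥0∞) ^ (ε * (j : ℝ)) *
        (C1 * ((2 : ℝ≥0∞) ^ ((1 + η) * (m / (m + 1)) * (j : ℝ)) * A j ^ q)) := by
        gcongr with j
        exact hlay j
    _ = C0 * ∑' j : ℕ, (C1 * ((2 : ℝ≥0∞) ^ (m + 1)) ^ q * K ^ q) * (2 : ℝ≥0∞) ^ (-ε * (j : ℝ)) := by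
        congr 2
        funext j
        have e1 : A j ^ q = ((2 : ℝ≥0∞) ^ (m + 1)) ^ q * K ^ q * (2 : ℝ≥0∞) ^ (-s * q * (j : ℝ)) := by
          rw [hA]
          simp only
          rw [ENNReal.mul_rpow_of_nonneg _ _ hq0.le, ENNReal.mul_rpow_of_nonneg _ _ hq0.le,
            ← ENNReal.rpow_mul 2 (-s * (j : ℝ))]
          congr 2
          ring
        have e2 : -ε * (j : ℝ) = ε * (j : ℝ) + ((1 + η) * (m / (m + 1)) * (j : ℝ) +
            -s * q * (j : ℝ)) := by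
          rw [← hexp]
          ring
        rw [e1, e2, two_add, two_add]
        ring
    _ = _ := by
        rw [ENNReal.tsum_mul_left, hD]
        ring

end Pool.Agent.Y247.QT
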