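import Mathlib
import Pool.Agent.Y247.QT.C
set_option autoImplicit false

/-! Diagonal quadratic twists of functions which are rough in one variable. -/

namespace Pool.Agent.Y247.QT

open MeasureTheory Set Complex Pool.Agent.W771 Pool.Agent.W771.MD
open scoped ENNReal NNReal FourierTransform

variable {m : ℕ}

/-- the twist of `f` by a quadratic exponential in the last `m` variables -/
noncomputable def tw (lam : Fin m → ℝ) (f : (Fin (m + 1) → ℝ) → ℂ) (ξ : Fin (m + 1) → ℝ) : ℂ :=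
  f ξ * ∏ i : Fin m, qe 0 (lam i) (ξ i.succ)

lemma tw_meas (lam : Fin m → ℝ) (f : (Fin (m + 1) → ℝ) → ℂ) (hf : Measurable f) :
    Measurable (tw lam f) := by
  unfold tw
  refine hf.mul ?_
  apply Continuous.measurable
  unfold qe
  fun_prop

lemma tw_cons (lam : Fin m → ℝ) (f : (Fin (m + 1) → ℝ) → ℂ) (u : ℝ) (v : Fin m → ℝ) :
    tw lam f (Fin.cons u v) = f (Fin.cons u v) * ea lam 0 0 v := by
  unfold tw ea
  simp

lemma ext_tw (lam : Fin m → ℝ) (f : (Fin (m + 1) → ℝ) → ℂ) (x : ℝ) (y : Fin m → ℝ) (t : ℝ) :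
    Pool.Agent.H728R3.SR.ext (tw lam f) (Fin.cons x y, t) =
      2 * LL (FFn f) (-4 * Real.pi * x) (-8 * Real.pi * t) (ea lam y t) := by
  rw [ext_LL]
  congr 1
  unfold LL
  congr 1
  ext w
  rw [ea_eq lam y t]
  have h : FFn (tw lam f) w.1 w.2 = FFn f w.1 w.2 * ea lam 0 0 w.2 := by
    unfold FFn
    by_cases hu : w.1 ∈ II
    · rw [indicator_of_mem hu, indicator_of_mem hu, tw_cons]
    · rw [indicator_of_notMem hu, indicator_of_notMem hu, zero_mul]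
  rw [h]
  ring

/-- **Functions which are rough in one variable**, general size. -/
theorem mainExt (hm : 1 ≤ m) (q p : ℝ) (hq : 2 * ((m : ℝ) + 2) / (m + 1) < q) (hp2 : 2 ≤ p)
    (hp : (m + 1) * q < p * ((m + 1) * (q - 1) - 2)) : ∃ C : ℝ≥0, ∀ lam : Fin m → ℝ,
    ∀ f : (Fin (m + 1) → ℝ) → ℂ, Measurable f → ∀ K : ℝ≥0∞, K ≠ 0 → K ≠ ∞ →
    (∫⁻ u in Icc (-1 : ℝ) 1, (∫⁻ v in Cb m, ‖f (Fin.cons u v)‖ₑ ^ 2) ^ (p / 2) ≤ K ^ p) →
    (∀ h : Fin m → ℝ, ‖h‖ ≤ 1 → ∫⁻ u in Icc (-1 : ℝ) 1,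
      (∫⁻ v in {v | v ∈ Cb m ∧ v + h ∈ Cb m},
        ‖f (Fin.cons u (v + h)) - f (Fin.cons u v)‖ₑ ^ 2) ^ (p / 2) ≤
      (K * ENNReal.ofReal (‖h‖ ^ ((m : ℝ) / (2 * (m + 2))))) ^ p) →
    ∫⁻ y : (Fin (m + 1) → ℝ) × ℝ, ‖Pool.Agent.H728R3.SR.ext (tw lam f) y‖ₑ ^ q ≤ (C * K) ^ q := by
  obtain ⟨C, hC⟩ := mainLL hm q p hq hp2 hp
  have hm0 : (1 : ℝ) ≤ m := by exact_mod_cast hm
  have hq0 : 0 < q := by
    refine lt_trans ?_ hq
    positivity
  have hp0 : 0 ≤ p / 2 := by linarith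
  -- the constant
  have hCt : (2 : ℝ≥0∞) * (C : ℝ≥0∞) ^ (1 / q) ≠ ∞ :=
    ENNReal.mul_ne_top (by norm_num) (ENNReal.rpow_ne_top_of_nonneg (by positivity)
      ENNReal.coe_ne_top)
  refine ⟨((2 : ℝ≥0∞) * (C : ℝ≥0∞) ^ (1 / q)).toNNReal, ?_⟩
  intro lam f hf K hK0 hKt hN hM
  rw [ENNReal.coe_toNNReal hCt]
  set F := FFn f with hFd
  have hF : Measurable (Function.uncurry F) := FFn_meas f hf
  -- the norm
  have hNF : ∫⁻ u in II, N2 (nuC m) F u ^ (p / 2) ≤ K ^ p := by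
    refine le_trans ?_ hN
    have hgm : Measurable (fun u : ℝ => (∫⁻ v in Cb m, ‖f (Fin.cons u v)‖ₑ ^ 2) ^ (p / 2)) := by
      have h1 : Measurable (fun w : ℝ × (Fin m → ℝ) => ‖f (Fin.cons w.1 w.2)‖ₑ ^ 2) :=
        (hf.comp cons_meas).enorm.pow_const 2
      exact (Measurable.lintegral_prod_right' h1).pow_const _
    refine le_trans (le_of_eq ?_) (II_scale _ hgm)
    apply setLIntegral_congr_fun measurableSet_Icc
    intro u hu
    simp only [hFd]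
    rw [FFn_N2 f u hu]
  have hMF : ∀ h : Fin m → ℝ, ‖h‖ ≤ 1 → ∫⁻ u in II, RM (F u) h ^ (p / 2) ≤
      (K * ENNReal.ofReal (‖h‖ ^ ((m : ℝ) / (2 * (m + 2))))) ^ p := by
    intro h hh
    refine le_trans ?_ (hM h hh)
    have hgm : Measurable (fun u : ℝ => (∫⁻ v in {v | v ∈ Cb m ∧ v + h ∈ Cb m},
        ‖f (Fin.cons u (v + h)) - f (Fin.cons u v)‖ₑ ^ 2) ^ (p / 2)) := by
      have h1 : Measurable (fun w : ℝ × (Fin m → ℝ) => f (Fin.cons w.1 w.2)) := hf.comp cons_meas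
      have h3 : Measurable (fun w : ℝ × (Fin m → ℝ) => ((w.1, w.2 + h) : ℝ × (Fin m → ℝ))) :=
        measurable_fst.prodMk (measurable_snd.add_const h)
      have h4 := h1.comp h3
      have h2 : Measurable (fun w : ℝ × (Fin m → ℝ) =>
          ‖f (Fin.cons w.1 (w.2 + h)) - f (Fin.cons w.1 w.2)‖ₑ ^ 2) :=
        (h4.sub h1).enorm.pow_const 2
      exact (Measurable.lintegral_prod_right' h2).pow_const _
    refine le_trans ?_ (II_scale _ hgm)
    apply setLIntegral_mono' measurableSet_Icc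
    intro u hu
    exact ENNReal.rpow_le_rpow (FFn_RM f u hu h) hp0
  have hae : ∀ᵐ u : ℝ, N2 (nuC m) F u ≠ ∞ := by
    have h1 : ∀ᵐ u ∂(volume.restrict II), N2 (nuC m) F u ^ (p / 2) < ∞ := by
      apply ae_lt_top ((N2_meas (nuC m) F hF).pow_const _)
      exact ne_top_of_le_ne_top (ENNReal.rpow_ne_top_of_nonneg (by linarith) hKt) hNF
    rw [ae_restrict_iff' measurableSet_Icc] at h1
    filter_upwards [h1] with u hu
    by_cases h : u ∈ II
    · intro hc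
      have h2 := hu h
      rw [hc, ENNReal.top_rpow_of_pos (by linarith)] at h2
      exact absurd h2 (lt_irrefl _)
    · rw [N2_zero (nuC m) F II (fun u hu v => indicator_of_notMem hu _) u h]
      exact ENNReal.zero_ne_top
  have hLL : ∀ X T ψ, LL F X T ψ = LL (tr F) X T ψ := by
    intro X T ψ
    unfold LL
    apply integral_congr_ae
    have h1 : ∀ᵐ w ∂((volume : Measure ℝ).prod (nuC m)), N2 (nuC m) F w.1 ≠ ∞ :=
      Measure.quasiMeasurePreserving_fst.ae hae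
    filter_upwards [h1] with w hw
    have h2 : tr F w.1 w.2 = F w.1 w.2 := indicator_of_mem (by exact hw) _
    rw [h2]
  have hext : ∀ x y t, ‖Pool.Agent.H728R3.SR.ext (tw lam f) (Fin.cons x y, t)‖ₑ ^ q =
      (2 : ℝ≥0∞) ^ q * ‖LL (tr F) (-4 * Real.pi * x) (-8 * Real.pi * t) (ea lam y t)‖ₑ ^ q := by
    intro x y t
    rw [ext_tw, ← hFd, hLL, enorm_mul, ENNReal.mul_rpow_of_nonneg _ _ hq0.le]
    congr 2
    rw [← ofReal_norm]
    norm_num
  have h2q : (2 : ℝ≥0∞) ^ q ≠ ∞ := ENNReal.rpow_ne_top_of_nonneg hq0.le (by norm_num)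
  rw [lint_cons _ ((ext_meas (m + 1) (tw lam f) (tw_meas lam f hf)).enorm.pow_const q)]
  simp only [hext, lintegral_const_mul' _ _ h2q]
  have hmain := hC lam (tr F) (tr_meas F hF) (fun u hu v => by
      unfold tr
      by_cases h : u ∈ {u | N2 (nuC m) F u ≠ ∞}
      · rw [indicator_of_mem h]
        exact indicator_of_notMem hu _
      · rw [indicator_of_notMem h]) (fun u => (tr_N2 F u).2) K hK0 hKt
    ((lintegral_mono fun u => ENNReal.rpow_le_rpow (tr_N2 F u).1 hp0).trans hNF)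
    (fun h hh => (lintegral_mono fun u => ENNReal.rpow_le_rpow (tr_RM F u h) hp0).trans
      (hMF h hh))
  calc (2 : ℝ≥0∞) ^ q * ∫⁻ t : ℝ, ∫⁻ x : ℝ, ∫⁻ y, ‖LL (tr F) (-4 * Real.pi * x)
        (-8 * Real.pi * t) (ea lam y t)‖ₑ ^ q ≤ (2 : ℝ≥0∞) ^ q * (C * K ^ q) := by gcongr
    _ = _ := by
        rw [ENNReal.mul_rpow_of_nonneg _ _ hq0.le, ENNReal.mul_rpow_of_nonneg _ _ hq0.le,
          ← ENNReal.rpow_mul, one_div, inv_mul_cancel₀ hq0.ne', ENNReal.rpow_one]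
        ring

end Pool.Agent.Y247.QT
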