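import Mathlib
import Pool.Agent.Y247.QT.D
set_option autoImplicit false

/-! Linear changes of variables and the diagonalization of quadratic forms. -/

namespace Pool.Agent.Y247.QT

open MeasureTheory Set Complex Pool.Agent.W771 Pool.Agent.W771.MD Matrix
open scoped ENNReal NNReal

section mat
variable {n : ℕ}

/-- every real quadratic form is diagonal in an orthonormal basis -/
lemma diag_exists (A : Matrix (Fin n) (Fin n) ℝ) : ∃ (U : Matrix (Fin n) (Fin n) ℝ)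
    (l : Fin n → ℝ), Uᵀ * U = 1 ∧ ∀ η : Fin n → ℝ,
      (U *ᵥ η) ⬝ᵥ (A *ᵥ (U *ᵥ η)) = ∑ j, l j * η j ^ 2 := by
  have hS : ((1 / 2 : ℝ) • (A + Aᵀ)).IsHermitian := by
    unfold Matrix.IsHermitian
    rw [conjTranspose_eq_transpose_of_trivial]
    ext i j
    simp only [transpose_apply, Matrix.smul_apply, Matrix.add_apply, smul_eq_mul]
    ring
  set U : Matrix (Fin n) (Fin n) ℝ := (hS.eigenvectorUnitary : Matrix (Fin n) (Fin n) ℝ) with hU
  have hUU : Uᵀ * U = 1 := by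
    have h := Unitary.coe_star_mul_self hS.eigenvectorUnitary
    rw [star_eq_conjTranspose, conjTranspose_eq_transpose_of_trivial] at h
    exact h
  refine ⟨U, hS.eigenvalues, hUU, fun η => ?_⟩
  have hsp := hS.spectral_theorem
  rw [Unitary.conjStarAlgAut_apply] at hsp
  have hsp2 : (1 / 2 : ℝ) • (A + Aᵀ) = U * diagonal hS.eigenvalues * Uᵀ := by
    have h2 : (star (hS.eigenvectorUnitary : Matrix (Fin n) (Fin n) ℝ)) = Uᵀ := by
      rw [star_eq_conjTranspose, conjTranspose_eq_transpose_of_trivial]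
    conv_lhs => rw [hsp]
    have h3 : (RCLike.ofReal ∘ hS.eigenvalues : Fin n → ℝ) = hS.eigenvalues := by
      ext i
      simp
    rw [h3]
    rw [h2]
  have e1 : ∀ ξ : Fin n → ℝ, ξ ⬝ᵥ (A *ᵥ ξ) = ξ ⬝ᵥ (((1 / 2 : ℝ) • (A + Aᵀ)) *ᵥ ξ) := by
    intro ξ
    have h1 : ξ ⬝ᵥ (Aᵀ *ᵥ ξ) = ξ ⬝ᵥ (A *ᵥ ξ) := by
      rw [mulVec_transpose, dotProduct_comm, ← dotProduct_mulVec]
    rw [smul_mulVec, dotProduct_smul, add_mulVec, dotProduct_add, h1, smul_eq_mul]
    ring
  set l := hS.eigenvalues with hl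
  clear_value l U
  rw [e1, hsp2]
  have e2 : (U * diagonal l * Uᵀ) *ᵥ (U *ᵥ η) = U *ᵥ (diagonal l *ᵥ η) := by
    rw [mulVec_mulVec, Matrix.mul_assoc, Matrix.mul_assoc, hUU, Matrix.mul_one, mulVec_mulVec]
  rw [e2, dotProduct_mulVec, ← mulVec_transpose, mulVec_mulVec, hUU, one_mulVec]
  unfold dotProduct
  apply Finset.sum_congr rfl
  intro j _
  rw [mulVec_diagonal]
  ring

variable (M : Matrix (Fin n) (Fin n) ℝ)

lemma mulVec_cont : Continuous fun ζ : Fin n → ℝ => M *ᵥ ζ := by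
  fun_prop

lemma lint_mat (hM : M.det ≠ 0) (f : (Fin n → ℝ) → ℝ≥0∞) (hf : Measurable f) :
    ∫⁻ ζ, f (M *ᵥ ζ) = ENNReal.ofReal |(M.det)⁻¹| * ∫⁻ ξ, f ξ := by
  have h := Real.map_matrix_volume_pi_eq_smul_volume_pi hM
  have h2 : ∫⁻ ζ, f (Matrix.toLin' M ζ) = ∫⁻ ξ, f ξ ∂(Measure.map (Matrix.toLin' M) volume) := by
    rw [lintegral_map hf]
    exact (mulVec_cont M).measurable
  rw [h, lintegral_smul_measure, smul_eq_mul] at h2
  simpa only [Matrix.toLin'_apply] using h2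

lemma int_mat (hM : M.det ≠ 0) (f : (Fin n → ℝ) → ℂ) (hf : Measurable f) :
    ∫ ξ, f ξ = |M.det| * ∫ ζ, f (M *ᵥ ζ) := by
  have h := Real.map_matrix_volume_pi_eq_smul_volume_pi hM
  have h2 : ∫ ζ, f (Matrix.toLin' M ζ) = ∫ ξ, f ξ ∂(Measure.map (Matrix.toLin' M) volume) := by
    rw [integral_map]
    · exact (mulVec_cont M).measurable.aemeasurable
    · exact hf.aestronglyMeasurable
  rw [h, integral_smul_measure, ENNReal.toReal_ofReal (abs_nonneg _)] at h2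
  simp only [Matrix.toLin'_apply] at h2
  rw [h2, Complex.real_smul, ← mul_assoc, ← Complex.ofReal_mul, ← abs_mul, mul_inv_cancel₀ hM,
    abs_one, Complex.ofReal_one, one_mul]

/-- the joint change of variables in space and time -/
lemma lint_mat_prod (hM : M.det ≠ 0) (c : ℝ) (hc : c ≠ 0) (f : (Fin n → ℝ) × ℝ → ℝ≥0∞)
    (hf : Measurable f) : ∫⁻ y : (Fin n → ℝ) × ℝ, f (M *ᵥ y.1, c * y.2) =
      ENNReal.ofReal |(M.det)⁻¹| * (ENNReal.ofReal |c⁻¹| * ∫⁻ y, f y) := by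
  have hfm : Measurable (fun y : (Fin n → ℝ) × ℝ => f (M *ᵥ y.1, c * y.2)) := by
    apply hf.comp
    exact ((mulVec_cont M).measurable.comp measurable_fst).prodMk (measurable_snd.const_mul c)
  rw [Measure.volume_eq_prod, lintegral_prod _ hfm.aemeasurable, lintegral_prod _ hf.aemeasurable]
  have e1 : ∀ x : Fin n → ℝ, ∫⁻ t, f (M *ᵥ x, c * t) = ENNReal.ofReal |c⁻¹| * ∫⁻ t, f (M *ᵥ x, t) := by
    intro x
    exact lint_scale (fun t => f (M *ᵥ x, t)) (hf.comp (measurable_const.prodMk measurable_id)) c hc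
  simp only [e1]
  have hm2 : Measurable (fun x : Fin n → ℝ => ∫⁻ t, f (x, t)) := Measurable.lintegral_prod_right' hf
  have hm3 : Measurable (fun x : Fin n → ℝ => ∫⁻ t, f (M *ᵥ x, t)) :=
    hm2.comp (mulVec_cont M).measurable
  rw [lintegral_const_mul _ hm3]
  have h4 := lint_mat M hM _ hm2
  rw [h4]
  ring

end mat

end Pool.Agent.Y247.QT
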