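import Mathlib
import Pool.Agent.Y247.QT.E
set_option autoImplicit false

/-! All quadratic twists. -/

namespace Pool.Agent.Y247.QT

open MeasureTheory Set Complex Pool.Agent.W771 Pool.Agent.W771.MD Matrix
open scoped ENNReal NNReal

/-- the quadratic exponential `exp (2 π i ⟨ξ, A ξ⟩)` -/
noncomputable def ch {n : ℕ} (A : Matrix (Fin n) (Fin n) ℝ) (ξ : Fin n → ℝ) : ℂ :=
  cexp (2 * Real.pi * I * ((ξ ⬝ᵥ (A *ᵥ ξ) : ℝ) : ℂ))

lemma ch_meas {n : ℕ} (A : Matrix (Fin n) (Fin n) ℝ) : Measurable (ch A) := by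
  apply Continuous.measurable
  unfold ch dotProduct mulVec dotProduct
  fun_prop

section rot
variable {m : ℕ} (U : Matrix (Fin (m + 1)) (Fin (m + 1)) ℝ) (hU : Uᵀ * U = 1)

/-- the scaled orthogonal matrix -/
noncomputable def MM : Matrix (Fin (m + 1)) (Fin (m + 1)) ℝ := ((m : ℝ) + 1) • U

include hU in
lemma MM_det_abs : |(MM U).det| = ((m : ℝ) + 1) ^ (m + 1) := by
  have h1 : U.det * U.det = 1 := by
    have := congrArg Matrix.det hU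
    rwa [det_mul, det_transpose, det_one] at this
  have h2 : |U.det| = 1 := by
    have h3 : |U.det| * |U.det| = 1 := by rw [← abs_mul, h1, abs_one]
    nlinarith [abs_nonneg U.det]
  unfold MM
  rw [det_smul, abs_mul, h2, mul_one, Fintype.card_fin, abs_of_nonneg (by positivity)]

include hU in
lemma MM_det : (MM U).det ≠ 0 := by
  intro h
  have h1 := MM_det_abs U hU
  rw [h, abs_zero] at h1
  have : (0 : ℝ) < ((m : ℝ) + 1) ^ (m + 1) := by positivity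
  linarith

lemma MM_mulVec (ζ : Fin (m + 1) → ℝ) : MM U *ᵥ ζ = ((m : ℝ) + 1) • (U *ᵥ ζ) := by
  unfold MM
  rw [smul_mulVec]

include hU in
lemma U_sq (ζ : Fin (m + 1) → ℝ) : ∑ j, (U *ᵥ ζ) j ^ 2 = ∑ j, ζ j ^ 2 := by
  have h1 : (U *ᵥ ζ) ⬝ᵥ (U *ᵥ ζ) = ζ ⬝ᵥ ζ := by
    rw [dotProduct_mulVec, ← mulVec_transpose, mulVec_mulVec, hU, one_mulVec]
  unfold dotProduct at h1
  calc ∑ j, (U *ᵥ ζ) j ^ 2 = ∑ j, (U *ᵥ ζ) j * (U *ᵥ ζ) j := by
        apply Finset.sum_congr rfl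
        intro j _
        ring
    _ = _ := by
        rw [h1]
        apply Finset.sum_congr rfl
        intro j _
        ring

include hU in
lemma MM_sq (ζ : Fin (m + 1) → ℝ) :
    ∑ j, (MM U *ᵥ ζ) j ^ 2 = (∑ j, ζ j ^ 2) * ((m : ℝ) + 1) ^ 2 := by
  rw [MM_mulVec, ← U_sq U hU ζ, Finset.sum_mul]
  apply Finset.sum_congr rfl
  intro j _
  rw [Pi.smul_apply, smul_eq_mul]
  ring

include hU in
lemma MM_cube (ζ : Fin (m + 1) → ℝ) (h : MM U *ᵥ ζ ∈ Icc (fun _ : Fin (m + 1) => (-1 : ℝ)) (fun _ => 1)) :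
    ζ ∈ Icc (fun _ : Fin (m + 1) => (-1 : ℝ)) (fun _ => 1) := by
  have h1 : ∑ j, (MM U *ᵥ ζ) j ^ 2 ≤ (m : ℝ) + 1 := by
    calc ∑ j, (MM U *ᵥ ζ) j ^ 2 ≤ ∑ _j : Fin (m + 1), (1 : ℝ) := by
          apply Finset.sum_le_sum
          intro j _
          have h2 := h.1 j
          have h3 := h.2 j
          simp only at h2 h3
          nlinarith
      _ = _ := by simp
  rw [MM_sq U hU] at h1
  have h4 : ∀ j, ζ j ^ 2 ≤ 1 := by
    intro j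
    have h5 : ζ j ^ 2 ≤ ∑ j, ζ j ^ 2 :=
      Finset.single_le_sum (f := fun j => ζ j ^ 2) (fun i _ => sq_nonneg _) (Finset.mem_univ j)
    have h6 : (0 : ℝ) ≤ m := Nat.cast_nonneg m
    have h7 : (∑ j, ζ j ^ 2) ≤ 1 := by
      by_contra hc
      push Not at hc
      have h8 : (0 : ℝ) < ((m : ℝ) + 1) ^ 2 := by positivity
      have h9 : 1 * ((m : ℝ) + 1) ^ 2 < (∑ j, ζ j ^ 2) * ((m : ℝ) + 1) ^ 2 :=
        mul_lt_mul_of_pos_right hc h8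
      nlinarith
    linarith
  constructor
  · intro j
    have := h4 j
    simp only
    nlinarith [abs_le_of_sq_le_sq' (show ζ j ^ 2 ≤ 1 ^ 2 by linarith) zero_le_one]
  · intro j
    have := h4 j
    simp only
    nlinarith [abs_le_of_sq_le_sq' (show ζ j ^ 2 ≤ 1 ^ 2 by linarith) zero_le_one]

include hU in
lemma MM_norm (ζ : Fin (m + 1) → ℝ) : ‖MM U *ᵥ ζ‖ ≤ ((m : ℝ) + 1) ^ 2 * ‖ζ‖ := by
  have hm : (0 : ℝ) ≤ m := Nat.cast_nonneg m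
  rw [pi_norm_le_iff_of_nonneg (by positivity)]
  intro i
  rw [Real.norm_eq_abs]
  apply abs_le_of_sq_le_sq _ (by positivity)
  have h1 : (MM U *ᵥ ζ) i ^ 2 ≤ ∑ j, (MM U *ᵥ ζ) j ^ 2 :=
    Finset.single_le_sum (f := fun j => (MM U *ᵥ ζ) j ^ 2) (fun i _ => sq_nonneg _)
      (Finset.mem_univ i)
  rw [MM_sq U hU] at h1
  have h2 : ∑ j, ζ j ^ 2 ≤ ((m : ℝ) + 1) * ‖ζ‖ ^ 2 := by
    calc ∑ j, ζ j ^ 2 ≤ ∑ _j : Fin (m + 1), ‖ζ‖ ^ 2 := by
          apply Finset.sum_le_sum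
          intro j _
          have h3 := norm_le_pi_norm ζ j
          rw [Real.norm_eq_abs] at h3
          rw [← sq_abs]
          gcongr
      _ = _ := by simp
  calc (MM U *ᵥ ζ) i ^ 2 ≤ (∑ j, ζ j ^ 2) * ((m : ℝ) + 1) ^ 2 := h1
    _ ≤ (((m : ℝ) + 1) * ‖ζ‖ ^ 2) * ((m : ℝ) + 1) ^ 2 := by gcongr
    _ ≤ (((m : ℝ) + 1) ^ 2 * ‖ζ‖) ^ 2 := by
        have h5 : ((m : ℝ) + 1) ^ 3 ≤ ((m : ℝ) + 1) ^ 4 := by
          apply pow_le_pow_right₀ (by linarith) (by norm_num)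
        nlinarith [sq_nonneg ‖ζ‖]

/-- the function in the new coordinates -/
noncomputable def gM (l : Fin (m + 1) → ℝ) (g : (Fin (m + 1) → ℝ) → ℂ) (ζ : Fin (m + 1) → ℝ) : ℂ :=
  g (MM U *ᵥ ζ) * qe 0 (((m : ℝ) + 1) ^ 2 * l 0) (ζ 0)

/-- the new times -/
noncomputable def lM (l : Fin (m + 1) → ℝ) (i : Fin m) : ℝ := ((m : ℝ) + 1) ^ 2 * l i.succ

lemma gM_meas (l : Fin (m + 1) → ℝ) (g : (Fin (m + 1) → ℝ) → ℂ) (hg : Measurable g) :
    Measurable (gM U l g) := by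
  unfold gM
  refine (hg.comp (mulVec_cont (MM U)).measurable).mul ?_
  apply Continuous.measurable
  unfold qe
  fun_prop

include hU in
lemma ext_rot (A : Matrix (Fin (m + 1)) (Fin (m + 1)) ℝ) (l : Fin (m + 1) → ℝ)
    (hl : ∀ η : Fin (m + 1) → ℝ, (U *ᵥ η) ⬝ᵥ (A *ᵥ (U *ᵥ η)) = ∑ j, l j * η j ^ 2)
    (g : (Fin (m + 1) → ℝ) → ℂ) (hg : Measurable g)
    (hz : ∀ ξ, ξ ∉ Icc (fun _ : Fin (m + 1) => (-1 : ℝ)) (fun _ => 1) → g ξ = 0)
    (x : Fin (m + 1) → ℝ) (t : ℝ) :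
    Pool.Agent.H728R3.SR.ext (fun ξ => g ξ * ch A ξ) (x, t) =
      |(MM U).det| * Pool.Agent.H728R3.SR.ext (tw (lM l) (gM U l g))
        ((MM U)ᵀ *ᵥ x, ((m : ℝ) + 1) ^ 2 * t) := by
  set Cu := Icc (fun _ : Fin (m + 1) => (-1 : ℝ)) (fun _ => 1) with hCu
  have hCm : MeasurableSet Cu := measurableSet_Icc
  have e1 : Pool.Agent.H728R3.SR.ext (fun ξ => g ξ * ch A ξ) (x, t) = ∫ ξ, g ξ * (ch A ξ *
      cexp (2 * Real.pi * I * ((∑ j, ξ j * x j + (∑ j, ξ j ^ 2) * t : ℝ) : ℂ))) := by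
    unfold Pool.Agent.H728R3.SR.ext
    rw [← integral_indicator hCm]
    congr 1
    ext ξ
    by_cases h : ξ ∈ Cu
    · rw [indicator_of_mem h]
      simp only
      ring
    · rw [indicator_of_notMem h, hz ξ h, zero_mul]
  have hmeas : Measurable (fun ξ : Fin (m + 1) → ℝ => g ξ * (ch A ξ *
      cexp (2 * Real.pi * I * ((∑ j, ξ j * x j + (∑ j, ξ j ^ 2) * t : ℝ) : ℂ)))) := by
    refine hg.mul ((ch_meas A).mul ?_)
    apply Continuous.measurable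
    fun_prop
  rw [e1, int_mat (MM U) (MM_det U hU) _ hmeas]
  congr 1
  unfold Pool.Agent.H728R3.SR.ext
  rw [← integral_indicator hCm]
  congr 1
  ext ζ
  by_cases h : ζ ∈ Cu
  · rw [indicator_of_mem h]
    simp only [tw, gM, lM]
    have e2 : ch A (MM U *ᵥ ζ) * cexp (2 * Real.pi * I *
        ((∑ j, (MM U *ᵥ ζ) j * x j + (∑ j, (MM U *ᵥ ζ) j ^ 2) * t : ℝ) : ℂ)) =
        qe 0 (((m : ℝ) + 1) ^ 2 * l 0) (ζ 0) *
          (∏ i : Fin m, qe 0 (((m : ℝ) + 1) ^ 2 * l i.succ) (ζ i.succ)) *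
        cexp (2 * Real.pi * I * ((∑ j, ζ j * ((MM U)ᵀ *ᵥ x) j +
          (∑ j, ζ j ^ 2) * (((m : ℝ) + 1) ^ 2 * t) : ℝ) : ℂ)) := by
      have e3 : (MM U *ᵥ ζ) ⬝ᵥ (A *ᵥ (MM U *ᵥ ζ)) = ∑ j, (((m : ℝ) + 1) ^ 2 * l j) * ζ j ^ 2 := by
        rw [MM_mulVec, mulVec_smul, dotProduct_smul, smul_dotProduct, hl, smul_eq_mul, smul_eq_mul,
          Finset.mul_sum, Finset.mul_sum]
        apply Finset.sum_congr rfl
        intro j _
        ring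
      have e4 : ∑ j, (MM U *ᵥ ζ) j * x j = ∑ j, ζ j * ((MM U)ᵀ *ᵥ x) j := by
        have h1 : (MM U *ᵥ ζ) ⬝ᵥ x = ζ ⬝ᵥ ((MM U)ᵀ *ᵥ x) := by
          rw [dotProduct_comm, dotProduct_mulVec, ← mulVec_transpose, dotProduct_comm]
        exact h1
      rw [MM_sq U hU, e4]
      unfold ch
      rw [e3, Fin.sum_univ_succ]
      unfold qe
      rw [← Complex.exp_sum, ← Complex.exp_add, ← Complex.exp_add, ← Complex.exp_add]
      congr 1
      have e5 : ∀ s : Fin m → ℝ, ((∑ i, s i : ℝ) : ℂ) = ∑ i, (s i : ℂ) := fun s => by push_cast; rfl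
      have e6 : (∑ i : Fin m, 2 * (Real.pi : ℂ) * I * ((ζ i.succ * 0 + ζ i.succ ^ 2 *
          (((m : ℝ) + 1) ^ 2 * l i.succ) : ℝ) : ℂ)) = 2 * Real.pi * I *
          ((∑ i : Fin m, ((m : ℝ) + 1) ^ 2 * l i.succ * ζ i.succ ^ 2 : ℝ) : ℂ) := by
        rw [e5, Finset.mul_sum]
        apply Finset.sum_congr rfl
        intro i _
        congr 2
        ring
      rw [e6]
      push_cast
      ring
    rw [mul_assoc (g (MM U *ᵥ ζ)), mul_assoc (g (MM U *ᵥ ζ)), ← e2]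
  · rw [indicator_of_notMem h]
    have h2 : g (MM U *ᵥ ζ) = 0 := hz _ fun hc => h (MM_cube U hU ζ hc)
    rw [h2, zero_mul]

end rot

end Pool.Agent.Y247.QT
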