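import Mathlib
import Pool.Agent.Y247.QT.F
set_option autoImplicit false

/-! The main estimate for all quadratic twists. -/

namespace Pool.Agent.Y247.QT

open MeasureTheory Set Complex Pool.Agent.W771 Pool.Agent.W771.MD Matrix
open scoped ENNReal NNReal

variable {m : ℕ}

lemma lint_cons' (G : (Fin (m + 1) → ℝ) → ℝ≥0∞) (hG : Measurable G) :
    ∫⁻ u : ℝ, ∫⁻ v : Fin m → ℝ, G (Fin.cons u v) = ∫⁻ ζ, G ζ := by
  have hmp := (volume_preserving_piFinSuccAbove (fun _ : Fin (m + 1) => ℝ) 0).symm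
  rw [← hmp.lintegral_comp_emb (MeasurableEquiv.measurableEmbedding _)]
  have h2 : ∀ w : ℝ × (Fin m → ℝ), (MeasurableEquiv.piFinSuccAbove
      (fun _ : Fin (m + 1) => ℝ) 0).symm w = (Fin.cons w.1 w.2 : Fin (m + 1) → ℝ) := by
    intro w
    simp [MeasurableEquiv.piFinSuccAbove]
    rfl
  simp only [h2]
  have h3 : Measurable (fun w : ℝ × (Fin m → ℝ) => G (Fin.cons w.1 w.2)) := hG.comp cons_meas
  exact (lintegral_prod (μ := (volume : Measure ℝ)) (ν := (volume : Measure (Fin m → ℝ))) _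
    h3.aemeasurable).symm

lemma Cb_vol : volume (Cb m) = 2 ^ m := by
  have h := congrArg (fun μ : Measure (Fin m → ℝ) => μ univ) (nuC_eq (m := m))
  simp only [Measure.restrict_apply_univ] at h
  rw [← h]
  exact CC_vol

/-- mixed norms are bounded by the `L^p` norm -/
lemma mixed_le (p : ℝ) (hp : 2 ≤ p) (H : (Fin (m + 1) → ℝ) → ℂ) (hH : Measurable H)
    (S : Set (Fin m → ℝ)) (hS : S ⊆ Cb m) :
    ∫⁻ u in Icc (-1 : ℝ) 1, (∫⁻ v in S, ‖H (Fin.cons u v)‖ₑ ^ 2) ^ (p / 2) ≤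
      ((2 : ℝ≥0∞) ^ m) ^ p * ∫⁻ ζ, ‖H ζ‖ₑ ^ p := by
  have hHp : Measurable (fun ζ => ‖H ζ‖ₑ ^ p) := hH.enorm.pow_const p
  have h1 : ∀ u : ℝ, (∫⁻ v in S, ‖H (Fin.cons u v)‖ₑ ^ 2) ^ (p / 2) ≤
      ((2 : ℝ≥0∞) ^ m) ^ p * ∫⁻ v, ‖H (Fin.cons u v)‖ₑ ^ p := by
    intro u
    have hm1 : Measurable (fun v : Fin m → ℝ => ‖H (Fin.cons u v)‖ₑ ^ 2) := by
      have : Measurable (fun v : Fin m → ℝ => ((u, v) : ℝ × (Fin m → ℝ))) :=
        measurable_const.prodMk measurable_id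
      exact ((hH.comp (cons_meas.comp this)).enorm).pow_const 2
    calc (∫⁻ v in S, ‖H (Fin.cons u v)‖ₑ ^ 2) ^ (p / 2) ≤
        (∫⁻ v in Cb m, ‖H (Fin.cons u v)‖ₑ ^ 2) ^ (p / 2) := by
          apply ENNReal.rpow_le_rpow _ (by linarith)
          exact lintegral_mono_set hS
      _ ≤ (volume.restrict (Cb m)) univ ^ (p / 2 - 1) *
          ∫⁻ v in Cb m, (‖H (Fin.cons u v)‖ₑ ^ 2) ^ (p / 2) :=
          jens _ _ hm1 (p / 2) (by linarith)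
      _ ≤ ((2 : ℝ≥0∞) ^ m) ^ p * ∫⁻ v, ‖H (Fin.cons u v)‖ₑ ^ p := by
          rw [Measure.restrict_apply_univ, Cb_vol]
          refine mul_le_mul' ?_ ?_
          · exact ENNReal.rpow_le_rpow_of_exponent_le (one_le_pow₀ (by norm_num)) (by linarith)
          · refine (lintegral_mono_set (subset_univ _)).trans ?_
            rw [Measure.restrict_univ]
            apply lintegral_mono
            intro v
            simp only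
            rw [← ENNReal.rpow_natCast, ← ENNReal.rpow_mul]
            apply le_of_eq
            congr 1
            push_cast
            ring
  have hc : ((2 : ℝ≥0∞) ^ m) ^ p ≠ ∞ :=
    ENNReal.rpow_ne_top_of_nonneg (by linarith) (ENNReal.pow_ne_top (by norm_num))
  calc ∫⁻ u in Icc (-1 : ℝ) 1, (∫⁻ v in S, ‖H (Fin.cons u v)‖ₑ ^ 2) ^ (p / 2) ≤
      ∫⁻ u in Icc (-1 : ℝ) 1, ((2 : ℝ≥0∞) ^ m) ^ p * ∫⁻ v, ‖H (Fin.cons u v)‖ₑ ^ p :=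
        lintegral_mono h1
    _ ≤ ∫⁻ u : ℝ, ((2 : ℝ≥0∞) ^ m) ^ p * ∫⁻ v, ‖H (Fin.cons u v)‖ₑ ^ p := by
        refine (lintegral_mono_set (subset_univ _)).trans ?_
        rw [Measure.restrict_univ]
    _ = _ := by
        rw [lintegral_const_mul' _ _ hc, lint_cons' _ hHp]

lemma cons_add (u : ℝ) (v h : Fin m → ℝ) :
    (Fin.cons u (v + h) : Fin (m + 1) → ℝ) = Fin.cons u v + Fin.cons 0 h := by
  ext i
  refine Fin.cases ?_ (fun i => ?_) i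
  · simp
  · simp

lemma cons_norm (h : Fin m → ℝ) : ‖(Fin.cons 0 h : Fin (m + 1) → ℝ)‖ ≤ ‖h‖ := by
  rw [pi_norm_le_iff_of_nonneg (norm_nonneg _)]
  intro i
  refine Fin.cases ?_ (fun i => ?_) i
  · simp
  · simp only [Fin.cons_succ]
    exact norm_le_pi_norm h i

/-- **the main estimate**: all quadratic twists -/
theorem allTwists (hm : 1 ≤ m) (q p : ℝ) (hq : 2 * ((m : ℝ) + 2) / (m + 1) < q) (hp2 : 2 ≤ p)
    (hp : (m + 1) * q < p * ((m + 1) * (q - 1) - 2)) : ∃ C : ℝ≥0,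
    ∀ (A : Matrix (Fin (m + 1)) (Fin (m + 1)) ℝ) (g : (Fin (m + 1) → ℝ) → ℂ), Measurable g →
    (∀ ξ, ξ ∉ Icc (fun _ : Fin (m + 1) => (-1 : ℝ)) (fun _ => 1) → g ξ = 0) →
    ∀ K : ℝ≥0∞, K ≠ 0 → K ≠ ∞ → (∫⁻ ξ, ‖g ξ‖ₑ ^ p ≤ K ^ p) →
    (∀ h : Fin (m + 1) → ℝ, ∫⁻ ξ, ‖g (ξ + h) - g ξ‖ₑ ^ p ≤
      (K * ENNReal.ofReal (‖h‖ ^ ((m : ℝ) / (2 * (m + 2))))) ^ p) →
    ∫⁻ y : (Fin (m + 1) → ℝ) × ℝ, ‖Pool.Agent.H728R3.SR.ext (fun ξ => g ξ * ch A ξ) y‖ₑ ^ q ≤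
      (C * K) ^ q := by
  obtain ⟨C, hC⟩ := mainExt hm q p hq hp2 hp
  have hm0 : (1 : ℝ) ≤ m := by exact_mod_cast hm
  have hq0 : 0 < q := by
    refine lt_trans ?_ hq
    positivity
  have hp0 : 0 ≤ p := by linarith
  set s : ℝ := (m : ℝ) / (2 * (m + 2)) with hs
  have hs0 : 0 < s := by positivity
  have hs1 : s ≤ 1 := by
    rw [hs, div_le_one (by positivity)]
    linarith
  set c0 : ℝ≥0∞ := 2 ^ m * ENNReal.ofReal (((m : ℝ) + 1) ^ 2) with hc0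
  have hc0t : c0 ≠ ∞ := ENNReal.mul_ne_top (ENNReal.pow_ne_top (by norm_num)) ENNReal.ofReal_ne_top
  have hone : (1 : ℝ≥0∞) ≤ ENNReal.ofReal (((m : ℝ) + 1) ^ 2) := by
    rw [← ENNReal.ofReal_one]
    apply ENNReal.ofReal_le_ofReal
    nlinarith
  have hc00 : c0 ≠ 0 := by
    apply mul_ne_zero (pow_ne_zero _ two_ne_zero)
    intro h
    rw [h] at hone
    exact absurd hone (by norm_num)
  set dm : ℝ := ((m : ℝ) + 1) ^ (m + 1) with hdm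
  have hdm1 : 1 ≤ dm := one_le_pow₀ (by linarith)
  have hDt : ENNReal.ofReal dm * (C : ℝ≥0∞) * c0 ≠ ∞ :=
    ENNReal.mul_ne_top (ENNReal.mul_ne_top ENNReal.ofReal_ne_top ENNReal.coe_ne_top) hc0t
  refine ⟨(ENNReal.ofReal dm * (C : ℝ≥0∞) * c0).toNNReal, ?_⟩
  intro A g hg hz K hK0 hKt hN hM
  rw [ENNReal.coe_toNNReal hDt]
  obtain ⟨U, l, hU, hl⟩ := diag_exists A
  have hdet := MM_det U hU
  have hdabs := MM_det_abs U hU
  have hdinv : ENNReal.ofReal |((MM U).det)⁻¹| ≤ 1 := by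
    rw [← ENNReal.ofReal_one]
    apply ENNReal.ofReal_le_ofReal
    rw [abs_inv, hdabs]
    exact inv_le_one_of_one_le₀ hdm1
  set f := gM U l g with hf
  have hfm : Measurable f := gM_meas U l g hg
  have hfn : ∀ ζ, ‖f ζ‖ₑ = ‖g (MM U *ᵥ ζ)‖ₑ := by
    intro ζ
    simp only [hf, gM]
    rw [enorm_mul, ← ofReal_norm (qe _ _ _), qe_norm, ENNReal.ofReal_one, mul_one]
  set K' : ℝ≥0∞ := c0 * K with hK'
  have hK'0 : K' ≠ 0 := mul_ne_zero hc00 hK0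
  have hK't : K' ≠ ∞ := ENNReal.mul_ne_top hc0t hKt
  have h2m : (2 : ℝ≥0∞) ^ m * K ≤ K' := by
    rw [hK', hc0]
    calc (2 : ℝ≥0∞) ^ m * K = 2 ^ m * 1 * K := by rw [mul_one]
      _ ≤ _ := by gcongr
  have hN' : ∫⁻ u in Icc (-1 : ℝ) 1, (∫⁻ v in Cb m, ‖f (Fin.cons u v)‖ₑ ^ 2) ^ (p / 2) ≤ K' ^ p := by
    refine (mixed_le p hp2 f hfm (Cb m) le_rfl).trans ?_
    have h1 : ∫⁻ ζ, ‖f ζ‖ₑ ^ p ≤ K ^ p := by
      simp only [hfn]
      rw [lint_mat (MM U) hdet (fun ξ => ‖g ξ‖ₑ ^ p) (hg.enorm.pow_const p)]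
      calc ENNReal.ofReal |((MM U).det)⁻¹| * ∫⁻ ξ, ‖g ξ‖ₑ ^ p ≤ 1 * K ^ p := by gcongr
        _ = _ := one_mul _
    calc ((2 : ℝ≥0∞) ^ m) ^ p * ∫⁻ ζ, ‖f ζ‖ₑ ^ p ≤ ((2 : ℝ≥0∞) ^ m) ^ p * K ^ p := by gcongr
      _ = (2 ^ m * K) ^ p := (ENNReal.mul_rpow_of_nonneg _ _ hp0).symm
      _ ≤ _ := by gcongr
  have hM' : ∀ h : Fin m → ℝ, ‖h‖ ≤ 1 → ∫⁻ u in Icc (-1 : ℝ) 1,
      (∫⁻ v in {v | v ∈ Cb m ∧ v + h ∈ Cb m},
        ‖f (Fin.cons u (v + h)) - f (Fin.cons u v)‖ₑ ^ 2) ^ (p / 2) ≤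
      (K' * ENNReal.ofReal (‖h‖ ^ s)) ^ p := by
    intro h _
    set H0 : Fin (m + 1) → ℝ := MM U *ᵥ (Fin.cons 0 h) with hH0
    set H : (Fin (m + 1) → ℝ) → ℂ := fun ζ => g (MM U *ᵥ ζ + H0) - g (MM U *ᵥ ζ) with hH
    have hMm := (mulVec_cont (MM U)).measurable
    have hHm : Measurable H := (hg.comp (hMm.add_const H0)).sub (hg.comp hMm)
    have e1 : ∀ u v, ‖f (Fin.cons u (v + h)) - f (Fin.cons u v)‖ₑ = ‖H (Fin.cons u v)‖ₑ := by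
      intro u v
      have e2 : f (Fin.cons u (v + h)) - f (Fin.cons u v) = H (Fin.cons u v) *
          qe 0 (((m : ℝ) + 1) ^ 2 * l 0) u := by
        simp only [hf, gM, hH, Fin.cons_zero]
        rw [cons_add, mulVec_add, ← hH0]
        ring
      rw [e2, enorm_mul, ← ofReal_norm (qe _ _ _), qe_norm, ENNReal.ofReal_one, mul_one]
    simp only [e1]
    refine (mixed_le p hp2 H hHm _ (fun v hv => hv.1)).trans ?_
    have h1 : ∫⁻ ζ, ‖H ζ‖ₑ ^ p ≤ (K * ENNReal.ofReal (‖H0‖ ^ s)) ^ p := by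
      have hgm : Measurable (fun ξ => ‖g (ξ + H0) - g ξ‖ₑ ^ p) :=
        ((hg.comp (measurable_id.add_const H0)).sub hg).enorm.pow_const p
      have h2 := lint_mat (MM U) hdet (fun ξ => ‖g (ξ + H0) - g ξ‖ₑ ^ p) hgm
      simp only [hH]
      rw [h2]
      calc ENNReal.ofReal |((MM U).det)⁻¹| * ∫⁻ ξ, ‖g (ξ + H0) - g ξ‖ₑ ^ p ≤
          1 * (K * ENNReal.ofReal (‖H0‖ ^ s)) ^ p := by
            gcongr
            exact hM H0
        _ = _ := one_mul _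
    have h3 : ‖H0‖ ^ s ≤ ((m : ℝ) + 1) ^ 2 * ‖h‖ ^ s := by
      have h4 : ‖H0‖ ≤ ((m : ℝ) + 1) ^ 2 * ‖h‖ :=
        (MM_norm U hU _).trans (mul_le_mul_of_nonneg_left (cons_norm h) (by positivity))
      calc ‖H0‖ ^ s ≤ (((m : ℝ) + 1) ^ 2 * ‖h‖) ^ s :=
            Real.rpow_le_rpow (norm_nonneg _) h4 hs0.le
        _ = (((m : ℝ) + 1) ^ 2) ^ s * ‖h‖ ^ s := Real.mul_rpow (by positivity) (norm_nonneg _)
        _ ≤ _ := by
            gcongr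
            calc (((m : ℝ) + 1) ^ 2) ^ s ≤ (((m : ℝ) + 1) ^ 2) ^ (1 : ℝ) :=
                  Real.rpow_le_rpow_of_exponent_le (by nlinarith) hs1
              _ = _ := Real.rpow_one _
    calc ((2 : ℝ≥0∞) ^ m) ^ p * ∫⁻ ζ, ‖H ζ‖ₑ ^ p ≤
        ((2 : ℝ≥0∞) ^ m) ^ p * (K * ENNReal.ofReal (‖H0‖ ^ s)) ^ p := by gcongr
      _ = (2 ^ m * (K * ENNReal.ofReal (‖H0‖ ^ s))) ^ p :=
          (ENNReal.mul_rpow_of_nonneg _ _ hp0).symm
      _ ≤ (2 ^ m * (K * ENNReal.ofReal (((m : ℝ) + 1) ^ 2 * ‖h‖ ^ s))) ^ p := by gcongr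
      _ = _ := by
          rw [ENNReal.ofReal_mul (by positivity), hK', hc0]
          congr 1
          ring
  have hmain := hC (lM l) f hfm K' hK'0 hK't hN' hM'
  have hL2 : ((m : ℝ) + 1) ^ 2 ≠ 0 := by positivity
  have hdT : ((MM U)ᵀ).det ≠ 0 := by rwa [det_transpose]
  have hem : Measurable (fun y : (Fin (m + 1) → ℝ) × ℝ =>
      ‖Pool.Agent.H728R3.SR.ext (tw (lM l) f) y‖ₑ ^ q) :=
    ((ext_meas (m + 1) _ (tw_meas (lM l) f hfm)).enorm).pow_const q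
  have e1 : ∀ y : (Fin (m + 1) → ℝ) × ℝ,
      ‖Pool.Agent.H728R3.SR.ext (fun ξ => g ξ * ch A ξ) y‖ₑ ^ q = (ENNReal.ofReal dm) ^ q *
        ‖Pool.Agent.H728R3.SR.ext (tw (lM l) f) ((MM U)ᵀ *ᵥ y.1, ((m : ℝ) + 1) ^ 2 * y.2)‖ₑ ^ q := by
    intro y
    have h1 := ext_rot U hU A l hl g hg hz y.1 y.2
    rw [show ((y.1, y.2) : (Fin (m + 1) → ℝ) × ℝ) = y from rfl] at h1
    rw [h1, enorm_mul, ENNReal.mul_rpow_of_nonneg _ _ hq0.le, hdabs]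
    congr 2
    rw [← ofReal_norm, Complex.norm_real, Real.norm_eq_abs, abs_of_nonneg (by positivity)]
  simp only [e1]
  rw [lintegral_const_mul' _ _ (ENNReal.rpow_ne_top_of_nonneg hq0.le ENNReal.ofReal_ne_top)]
  rw [lint_mat_prod ((MM U)ᵀ) hdT (((m : ℝ) + 1) ^ 2) hL2 _ hem]
  have h5 : ENNReal.ofReal |(((MM U)ᵀ).det)⁻¹| ≤ 1 := by
    rw [det_transpose]
    exact hdinv
  have h6 : ENNReal.ofReal |(((m : ℝ) + 1) ^ 2)⁻¹| ≤ 1 := by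
    rw [← ENNReal.ofReal_one]
    apply ENNReal.ofReal_le_ofReal
    rw [abs_inv, abs_of_nonneg (by positivity)]
    exact inv_le_one_of_one_le₀ (by nlinarith)
  calc (ENNReal.ofReal dm) ^ q * (ENNReal.ofReal |(((MM U)ᵀ).det)⁻¹| *
        (ENNReal.ofReal |(((m : ℝ) + 1) ^ 2)⁻¹| *
          ∫⁻ y, ‖Pool.Agent.H728R3.SR.ext (tw (lM l) f) y‖ₑ ^ q)) ≤
      (ENNReal.ofReal dm) ^ q * (1 * (1 * (C * K') ^ q)) := by gcongr
    _ = _ := by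
        rw [one_mul, one_mul, ← ENNReal.mul_rpow_of_nonneg _ _ hq0.le, hK']
        congr 1
        ring

end Pool.Agent.Y247.QT
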